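import Pool.Agent.Q259.BW.Main

/-!
# Equivariant bijections between characters of height zero
-/

set_option autoImplicit false
set_option linter.unusedSectionVars false

open scoped BigOperators Classical

noncomputable section

namespace Pool.Agent.Q259.BW

open Pool.Agent.Q90.WR Pool.Agent.H254R3.IN

variable {p : ℕ} [hp : Fact p.Prime] {O : ValuationSubring ℂ}

/-! ### blocks with trivial defect group -/

theorem block_mem {G : Type} [Group G] [Finite G] {B : Set (G → ℂ)} (hB : IsBlock O B)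
    {χ ψ : G → ℂ} (hχ : χ ∈ B) (hψ : IsIrr ψ) (h : ∀ x, omega χ x - omega ψ x ∈ O.nonunits) :
    ψ ∈ B := by
  have := Fintype.ofFinite G
  by_contra hcon
  obtain ⟨x, hx⟩ := hB.exists_ne hχ hψ hcon
  exact hx ((red_eq_iff ((hB.irr χ hχ).omega_mem O x) (hψ.omega_mem O x)).mpr (h x))

theorem block_eq {G : Type} [Group G] [Finite G] {B B' : Set (G → ℂ)} (hB : IsBlock O B)
    (hB' : IsBlock O B') (h : B ⊆ B') : B = B' := by
  have := Fintype.ofFinite G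
  refine Set.Subset.antisymm h fun ψ hψ => ?_
  obtain ⟨χ, hχ⟩ := hB.nonempty
  refine block_mem hB hχ (hB'.irr ψ hψ) fun x => ?_
  rw [← red_eq_iff ((hB.irr χ hχ).omega_mem O x) ((hB'.irr ψ hψ).omega_mem O x)]
  exact hB'.red_eq (h hχ) hψ x

theorem brauer_bot {G : Type} [Group G] [Finite G] {D : Subgroup G} (hD : D = ⊥)
    {B : Set (G → ℂ)} {b : Set (Subgroup.normalizer (D : Set G) → ℂ)} (hB : IsBlock O B)
    (hb : IsBrauerCorrespondent p O D B b) :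
    ∃ e : Subgroup.normalizer (D : Set G) ≃* G, (∀ x, e x = (x : G)) ∧ b = pull e B := by
  have := Fintype.ofFinite G
  have hN : Subgroup.normalizer (D : Set G) = ⊤ := by
    rw [hD]
    exact Subgroup.normalizer_eq_top ⊥
  let e : Subgroup.normalizer (D : Set G) ≃* G := (MulEquiv.subgroupCongr hN).trans Subgroup.topEquiv
  have he : ∀ x, e x = (x : G) := fun x => rfl
  refine ⟨e, he, block_eq hb.1 (pull_block e hB) fun θ hθ => ?_⟩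
  obtain ⟨χ, hχ⟩ := hB.nonempty
  have hirr : IsIrr (fun g => θ (e.symm g)) := (irr_symm e).mpr (hb.1.irr θ hθ)
  refine block_mem hB hχ hirr fun x => ?_
  have h1 := hb.2.2 χ hχ θ hθ x
  rw [sum_eq_L] at h1
  rw [omega_eq_L hirr]
  have h4 : L (MonoidHom.id G) (fun g => θ (e.symm g)) x =
      L (Subgroup.normalizer (D : Set G)).subtype θ x := by
    unfold L
    simp only [map_one]
    congr 1
    refine Fintype.sum_equiv e.symm.toEquiv _ _ fun g => ?_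
    have h5 : ((e.symm g : Subgroup.normalizer (D : Set G)) : G) = g := by
      rw [← he, MulEquiv.apply_symm_apply]
    change (if IsConj x g then _ else _) = if IsConj x ((e.symm g : _) : G) then _ else _
    rw [h5]
    rfl
  rw [h4]
  exact h1

theorem num_bot {X : Dat} (hX : X.IsBrauer p O) (hD : X.D = ⊥) (S : Set (ℂ ≃+* ℂ)) :
    Nat.card (Fx S (X.ht0 p)) = Nat.card (Fx S (X.ht0' p)) := by
  have := hX.fin
  obtain ⟨e, he, hb⟩ := brauer_bot hD hX.block hX.brauer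
  have h1 : X.ht0' p = pull e (X.ht0 p) := by
    have h2 := irr0_pull e (p := p) X.D X.B
    have h3 : X.D.comap e.toMonoidHom = X.DN := by
      ext x
      rw [Subgroup.mem_comap, Dat.DN, Subgroup.mem_subgroupOf, ← he]
      rfl
    rw [h3, ← hb] at h2
    exact h2
  rw [h1, fx_pull, card_pull]

/-! ### equivariant bijections -/

/-- There is a bijection `A → A'` commuting with all `σ ∈ Γ`. -/
def EquivBij (Γ : Set (ℂ ≃+* ℂ)) {G H : Type} (A : Set (G → ℂ)) (A' : Set (H → ℂ)) : Prop :=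
  ∃ f : A ≃ A', ∀ σ ∈ Γ, ∀ χ : A, ∃ h : (fun g => σ ((χ : G → ℂ) g)) ∈ A,
    (f ⟨fun g => σ ((χ : G → ℂ) g), h⟩ : H → ℂ) = fun g => σ ((f χ : H → ℂ) g)

theorem fixed_iff {σ : ℂ ≃+* ℂ} {G : Type} {χ : G → ℂ} :
    FixedBy σ χ ↔ (fun g => σ (χ g)) = χ := funext_iff.symm

/-- the action on functions -/
@[instance_reducible] def act (Γ : Subgroup (ℂ ≃+* ℂ)) (G : Type) : MulAction Γ (G → ℂ) where
  smul σ χ := fun g => (σ : ℂ ≃+* ℂ) (χ g)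
  one_smul _ := rfl
  mul_smul _ _ _ := rfl

theorem num_of_bij {G H : Type} {A : Set (G → ℂ)} {A' : Set (H → ℂ)} {Γ : Set (ℂ ≃+* ℂ)}
    (h : EquivBij Γ A A') {Δ : Set (ℂ ≃+* ℂ)} (hΔ : Δ ⊆ Γ) :
    Nat.card (Fx Δ A) = Nat.card (Fx Δ A') := by
  obtain ⟨f, hf⟩ := h
  have key : ∀ χ : A, (∀ σ ∈ Δ, FixedBy σ (χ : G → ℂ)) ↔ ∀ σ ∈ Δ, FixedBy σ (f χ : H → ℂ) := by
    intro χ
    refine forall₂_congr fun σ hσ => ?_
    obtain ⟨h1, h2⟩ := hf σ (hΔ hσ) χ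
    rw [fixed_iff, fixed_iff, ← h2]
    constructor
    · intro h3
      congr 2
      exact Subtype.ext h3
    · intro h3
      have h4 := f.injective (Subtype.ext h3)
      exact congrArg Subtype.val h4
  refine Nat.card_congr
    { toFun := fun χ => ⟨f ⟨χ.1, χ.2.1⟩, (f ⟨χ.1, χ.2.1⟩).2, (key ⟨χ.1, χ.2.1⟩).mp χ.2.2⟩
      invFun := fun χ => ⟨f.symm ⟨χ.1, χ.2.1⟩, (f.symm ⟨χ.1, χ.2.1⟩).2,
        (key (f.symm ⟨χ.1, χ.2.1⟩)).mpr (by
          rw [Equiv.apply_symm_apply]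
          exact χ.2.2)⟩
      left_inv := fun χ => by
        have h := f.symm_apply_apply ⟨χ.1, χ.2.1⟩
        exact Subtype.ext (congrArg (fun z : A => (z : G → ℂ)) h)
      right_inv := fun χ => by
        have h := f.apply_symm_apply ⟨χ.1, χ.2.1⟩
        exact Subtype.ext (congrArg (fun z : A' => (z : H → ℂ)) h) }

theorem bij_of_num {G H : Type} {A : Set (G → ℂ)} {A' : Set (H → ℂ)} (hA : A.Finite)
    (hA' : A'.Finite) {Γ : Subgroup (ℂ ≃+* ℂ)} (sA : StableS Γ A) (sA' : StableS Γ A')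
    (h : ∀ Δ : Subgroup (ℂ ≃+* ℂ), Δ ≤ Γ →
      Nat.card (Fx (Δ : Set (ℂ ≃+* ℂ)) A) = Nat.card (Fx (Δ : Set (ℂ ≃+* ℂ)) A')) :
    EquivBij Γ A A' := by
  have key : ∀ (K : Type) (C : Set (K → ℂ)) (Δ : Subgroup Γ),
      (@fxp Γ (K → ℂ) _ (act Γ K) C Δ).ncard =
        Nat.card (Fx ((Δ.map Γ.subtype : Subgroup (ℂ ≃+* ℂ)) : Set (ℂ ≃+* ℂ)) C) := by
    intro K C Δ
    rw [← Nat.card_coe_set_eq]
    congr 2
    ext χ
    unfold fxp Fx
    simp only [Set.mem_ofPred_eq]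
    refine and_congr_right fun _ => ?_
    constructor
    · rintro h3 σ ⟨τ, hτ, rfl⟩
      exact fun g => congrFun (h3 τ hτ) g
    · intro h3 τ hτ
      funext g
      exact h3 (τ : ℂ ≃+* ℂ) ⟨τ, hτ, rfl⟩ g
  obtain ⟨f, hf, hfe⟩ := @iso_of_marks Γ (G → ℂ) (H → ℂ) _ (act Γ G) (act Γ H) A.ncard A A' hA hA'
    rfl (fun σ χ hχ => sA σ σ.2 χ hχ) (fun σ χ hχ => sA' σ σ.2 χ hχ)
    (fun Δ => by
      rw [key, key]
      refine h _ ?_
      rintro _ ⟨τ, _, rfl⟩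
      exact τ.2) inferInstance
  refine ⟨hf.equiv f, fun σ hσ χ => ⟨sA σ hσ χ χ.2, ?_⟩⟩
  exact hfe ⟨σ, hσ⟩ χ χ.2

theorem stable_ht0 {G : Type} [Group G] {D : Subgroup G} {B : Set (G → ℂ)}
    {S : Set (ℂ ≃+* ℂ)} (h : StableS S B) : StableS S (Irr0 p D B) := by
  rintro σ hσ χ ⟨h1, n, hn, h2⟩
  refine ⟨h σ hσ χ h1, n, ?_, h2⟩
  change (n : ℂ) = σ (χ 1)
  rw [← hn, map_natCast]

/-- There is a `Γ`-equivariant bijection `Irr₀(B) → Irr₀(b)`. -/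
def Dat.Bij (p : ℕ) (Γ : Set (ℂ ≃+* ℂ)) (X : Dat) : Prop := EquivBij Γ (X.ht0 p) (X.ht0' p)

theorem bij_iff (X : Dat) (hX : X.IsBrauer p O) (Γ : Subgroup (ℂ ≃+* ℂ))
    (hS : X.Adm p (Γ : Set (ℂ ≃+* ℂ))) : X.Bij p Γ ↔ ∀ Δ : Subgroup (ℂ ≃+* ℂ), Δ ≤ Γ →
      Nat.card (Fx (Δ : Set (ℂ ≃+* ℂ)) (X.ht0 p)) = Nat.card (Fx (Δ : Set (ℂ ≃+* ℂ)) (X.ht0' p)) := by
  have := hX.fin
  constructor
  · intro h Δ hΔ
    exact num_of_bij h hΔ
  · intro h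
    exact bij_of_num (finite_of_irr (ht0_irr hX)) (finite_of_irr (ht0'_irr hX))
      (stable_ht0 hS.stable) (stable_ht0 hS.stable') h

/-- the criterion for a single block -/
theorem one_block (hp2 : p ≠ 2) (hpO : (p : ℂ) ∈ O.nonunits) (X : Dat) (hX : X.IsBrauer p O)
    (hne : X.D ≠ ⊥) (Γ : Subgroup (ℂ ≃+* ℂ)) (hS : X.Adm p (Γ : Set (ℂ ≃+* ℂ))) :
    X.Bij p Γ ↔ ∀ Δ : Subgroup (ℂ ≃+* ℂ), Δ ≤ Γ → ∀ j : ℕ,
      2 ^ j ≤ max (Nat.card (X.ht0 p)) (Nat.card (X.ht0' p)) →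
      Nat.card (Fx (Δ : Set (ℂ ≃+* ℂ)) ((Dat.wr^[j] X).ht0 p)) ≡
        Nat.card (Fx (Δ : Set (ℂ ≃+* ℂ)) ((Dat.wr^[j] X).ht0' p)) [MOD 2] := by
  rw [bij_iff X hX Γ hS]
  constructor
  · intro h Δ hΔ j _
    rw [eq_levels' hp2 hpO _ j X hX hne (hS.mono hΔ) (h Δ hΔ)]
  · intro h Δ hΔ
    exact num_criterion hp2 hpO _ X hX hne (hS.mono hΔ) (h Δ hΔ)

/-- all blocks, subgroups of automorphisms contained in `H` -/
theorem all_blocks (hp2 : p ≠ 2) (hpO : (p : ℂ) ∈ O.nonunits) (H : Set (ℂ ≃+* ℂ)) :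
    (∀ X : Dat, X.IsBrauer p O → ∀ Γ : Subgroup (ℂ ≃+* ℂ), (Γ : Set (ℂ ≃+* ℂ)) ⊆ H →
      X.Adm p (Γ : Set (ℂ ≃+* ℂ)) → X.Bij p Γ) ↔
    ∀ X : Dat, X.IsBrauer p O → ∀ Γ : Subgroup (ℂ ≃+* ℂ), (Γ : Set (ℂ ≃+* ℂ)) ⊆ H →
      X.Adm p (Γ : Set (ℂ ≃+* ℂ)) →
      Nat.card (Fx (Γ : Set (ℂ ≃+* ℂ)) (X.ht0 p)) ≡
        Nat.card (Fx (Γ : Set (ℂ ≃+* ℂ)) (X.ht0' p)) [MOD 2] := by
  constructor
  · intro h X hX Γ hΓ hS
    rw [(bij_iff X hX Γ hS).mp (h X hX Γ hΓ hS) Γ le_rfl]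
  · intro h X hX Γ hΓ hS
    rcases eq_or_ne X.D ⊥ with hD | hne
    · rw [bij_iff X hX Γ hS]
      exact fun Δ _ => num_bot hX hD Δ
    · rw [one_block hp2 hpO X hX hne Γ hS]
      intro Δ hΔ j _
      obtain ⟨h1, -, h3⟩ := levels_prop hp2 hpO (Δ : Set (ℂ ≃+* ℂ)) j X hX hne (hS.mono hΔ)
      exact h _ h1 Δ (Set.Subset.trans hΔ hΓ) h3

end Pool.Agent.Q259.BW
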