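import Pool.Agent.Q259.BW.Conj

/-!
# The block of `G ≀ C₂` above a block of `G`
-/

set_option autoImplicit false
set_option linter.unusedSectionVars false

open scoped BigOperators Classical

noncomputable section

namespace Pool.Agent.Q259.BW

open Pool.Agent.Q90.WR Pool.Agent.H254R3.IN

/-- The irreducible characters of `G ≀ C₂` above the products of two characters in `A`: the
characters induced from `θ₁ × θ₂`, `θ₁ ≠ θ₂` in `A`, and the two extensions of `θ × θ`, `θ ∈ A`. -/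
def WrS {G : Type} [Group G] (A : Set (G → ℂ)) : Set (Wr G → ℂ) :=
  {χ | (∃ θ₁ ∈ A, ∃ θ₂ ∈ A, θ₁ ≠ θ₂ ∧ χ = ind2 θ₁ θ₂) ∨
    ∃ θ ∈ A, χ = ext2 1 θ ∨ χ = ext2 (-1) θ}

section red

variable {K G : Type} [Group K] [Fintype K] [Group G] {O : ValuationSubring ℂ}

/-- the residues of the central characters -/
def Lam (O : ValuationSubring ℂ) (lam : G → RF O) (x : Wr G) : RF O :=
  match x.s with
  | false => red O (kap x.a x.b) * (2 * (lam x.a * lam x.b))
  | true => 0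

theorem kap_mem (h2 : (2 : ℂ)⁻¹ ∈ O) (a b : G) : kap a b ∈ O := by
  unfold kap
  split_ifs
  · rw [one_div]; exact h2
  · exact O.one_mem

theorem L_wr (h2 : (2 : ℂ)⁻¹ ∈ O) {π : K →* G} {b : Set (K → ℂ)} (hb : ∀ ψ ∈ b, ψ 1 ≠ 0)
    (lam : G → RF O) (hL : ∀ ψ ∈ b, ∀ a, L π ψ a ∈ O ∧ red O (L π ψ a) = lam a)
    (hz : ∀ ψ ∈ b, (Nat.card K : ℂ) / ψ 1 ∈ O.nonunits) :
    ∀ χ ∈ WrS b, ∀ x : Wr G, L (wmap π) χ x ∈ O ∧ red O (L (wmap π) χ x) = Lam O lam x := by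
  have key : ∀ ψ₁ ∈ b, ∀ ψ₂ ∈ b, ∀ u v : G,
      kap u v * (L π ψ₁ u * L π ψ₂ v + L π ψ₂ u * L π ψ₁ v) ∈ O ∧
      red O (kap u v * (L π ψ₁ u * L π ψ₂ v + L π ψ₂ u * L π ψ₁ v)) =
        red O (kap u v) * (2 * (lam u * lam v)) := by
    intro ψ₁ h1 ψ₂ h2' u v
    obtain ⟨m1, r1⟩ := hL ψ₁ h1 u
    obtain ⟨m2, r2⟩ := hL ψ₂ h2' v
    obtain ⟨m3, r3⟩ := hL ψ₂ h2' u
    obtain ⟨m4, r4⟩ := hL ψ₁ h1 v
    have mk := kap_mem h2 u v
    have mm := O.add_mem _ _ (O.mul_mem _ _ m1 m2) (O.mul_mem _ _ m3 m4)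
    refine ⟨O.mul_mem _ _ mk mm, ?_⟩
    rw [red_mul mk mm, red_add (O.mul_mem _ _ m1 m2) (O.mul_mem _ _ m3 m4), red_mul m1 m2,
      red_mul m3 m4, r1, r2, r3, r4]
    ring
  have keyt : ∀ ε : ℂ, (ε = 1 ∨ ε = -1) → ∀ ψ ∈ b, ∀ u : G,
      ε * ((Nat.card K : ℂ) / ψ 1) * L π ψ u ∈ O.nonunits := by
    intro ε hε ψ hψ u
    have m1 := (hL ψ hψ u).1
    have m0 := nonunits_mem (hz ψ hψ)
    have mε : ε ∈ O := by
      rcases hε with rfl | rfl
      · exact O.one_mem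
      · exact O.neg_mem _ O.one_mem
    have m2 := O.mul_mem _ _ (O.mul_mem _ _ mε m0) m1
    rw [← red_eq_zero_iff m2, red_mul (O.mul_mem _ _ mε m0) m1, red_mul mε m0,
      red_eq_zero (hz ψ hψ), mul_zero, zero_mul]
  have keye : ∀ ε : ℂ, (ε = 1 ∨ ε = -1) → ∀ ψ ∈ b, ∀ x : Wr G,
      L (wmap π) (ext2 ε ψ) x ∈ O ∧ red O (L (wmap π) (ext2 ε ψ) x) = Lam O lam x := by
    rintro ε hε ψ hψ ⟨u, v, s⟩
    cases s
    · rw [L_ext_base (hb ψ hψ)]
      exact key ψ hψ ψ hψ u v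
    · rw [L_ext_true (hb ψ hψ)]
      have := keyt ε hε ψ hψ (u * v)
      exact ⟨nonunits_mem this, red_eq_zero this⟩
  rintro χ (⟨θ₁, h1, θ₂, h2', -, rfl⟩ | ⟨θ, h1, rfl | rfl⟩) x
  · obtain ⟨u, v, s⟩ := x
    cases s
    · rw [L_ind_base (hb _ h1) (hb _ h2')]
      exact key θ₁ h1 θ₂ h2' u v
    · rw [L_ind_true]
      exact ⟨O.zero_mem, red_zero⟩
  · exact keye 1 (Or.inl rfl) θ h1 x
  · exact keye (-1) (Or.inr rfl) θ h1 x

end red

section block

variable {G : Type} [Group G] [Fintype G] {O : ValuationSubring ℂ}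

theorem omega_eq_L {χ : G → ℂ} (h : IsIrr χ) (x : G) : omega χ x = L (MonoidHom.id G) χ x := by
  rw [← Om_ind h]
  unfold Om L ind
  congr 1
  refine Finset.sum_congr rfl fun c _ => ?_
  rw [MonoidHom.id_apply]
  split_ifs <;> simp

theorem omega_eq_L' {χ : Wr G → ℂ} (h : IsIrr χ) (x : Wr G) :
    omega χ x = L (wmap (MonoidHom.id G)) χ x := omega_eq_L h x

theorem WrS_irr {A : Set (G → ℂ)} (hA : ∀ θ ∈ A, IsIrr θ) : ∀ χ ∈ WrS A, IsIrr χ := by
  rintro χ (⟨θ₁, h1, θ₂, h2, hne, rfl⟩ | ⟨θ, h1, rfl | rfl⟩)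
  · exact ind2_irr (hA _ h1) (hA _ h2) hne
  · exact ext2_irr (ε := 1) (hA _ h1) (by norm_num)
  · exact ext2_irr (ε := -1) (hA _ h1) (by norm_num)

theorem isConj_one {a : G} : IsConj a (1 : G) ↔ a = 1 := by
  rw [isConj_comm, isConj_one_right]

/-- `1/2` and `2` are units of `O` -/
theorem half_red (h2 : (2 : ℂ)⁻¹ ∈ O) : red O ((2 : ℂ)⁻¹) * 2 = 1 ∧ (2 : RF O) ≠ 0 := by
  have h3 : (2 : ℂ) ∈ O := by exact_mod_cast natCast_mem' (O := O) 2
  have h4 : red O (2 : ℂ) = 2 := by exact_mod_cast red_natCast (O := O) 2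
  have h5 : red O ((2 : ℂ)⁻¹) * 2 = 1 := by
    rw [← h4, ← red_mul h2 h3, inv_mul_cancel₀ two_ne_zero, red_one]
  refine ⟨h5, fun h => ?_⟩
  rw [h, mul_zero] at h5
  exact zero_ne_one h5

theorem omega_one {χ : G → ℂ} (h : IsIrr χ) : omega χ 1 = 1 := by
  unfold omega
  have h1 : Nat.card {y : G // IsConj 1 y} = 1 := by
    rw [Nat.card_eq_one_iff_unique]
    refine ⟨⟨fun x y => Subtype.ext ?_⟩, ⟨⟨1, IsConj.refl 1⟩⟩⟩
    rw [isConj_one_right.mp x.2, isConj_one_right.mp y.2]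
  rw [h1, Nat.cast_one, one_mul, div_self h.one_ne]

/-- The block of the wreath product. -/
theorem wr_block (h2 : (2 : ℂ)⁻¹ ∈ O) {B : Set (G → ℂ)} (hB : IsBlock O B)
    (hz : ∀ ψ ∈ B, (Nat.card G : ℂ) / ψ 1 ∈ O.nonunits) : IsBlock O (WrS B) := by
  obtain ⟨θ₀, hθ₀⟩ := hB.nonempty
  have hi := hB.irr
  let lam : G → RF O := fun a => red O (omega θ₀ a)
  have hL : ∀ ψ ∈ B, ∀ a, L (MonoidHom.id G) ψ a ∈ O ∧ red O (L (MonoidHom.id G) ψ a) = lam a := by
    intro ψ hψ a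
    rw [← omega_eq_L (hi ψ hψ)]
    exact ⟨(hi ψ hψ).omega_mem O a, hB.red_eq hψ hθ₀ a⟩
  have hP := L_wr h2 (fun ψ hψ => (hi ψ hψ).one_ne) lam hL hz
  have h0 : ext2 1 θ₀ ∈ WrS B := Or.inr ⟨θ₀, hθ₀, Or.inl rfl⟩
  have hirr := WrS_irr hi
  obtain ⟨hh, h2ne⟩ := half_red h2
  refine ⟨ext2 1 θ₀, hirr _ h0, Set.Subset.antisymm ?_ ?_⟩
  · intro χ hχ
    refine ⟨hirr χ hχ, fun x => ?_⟩
    rw [← red_eq_iff ((hirr χ hχ).omega_mem O x) ((hirr _ h0).omega_mem O x),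
      omega_eq_L' (hirr χ hχ), omega_eq_L' (hirr _ h0), (hP χ hχ x).2, (hP _ h0 x).2]
  · rintro χ ⟨hχ, hx⟩
    have hr : ∀ x : Wr G, red O (L (wmap (MonoidHom.id G)) χ x) = Lam O lam x := by
      intro x
      rw [← omega_eq_L' hχ, (red_eq_iff (hχ.omega_mem O x) ((hirr _ h0).omega_mem O x)).mpr (hx x),
        omega_eq_L' (hirr _ h0), (hP _ h0 x).2]
    have lam1 : lam 1 = 1 := by
      change red O (omega θ₀ 1) = 1
      rw [omega_one (hi _ hθ₀), red_one]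
    -- the values of the central characters
    have key : ∀ ψ₁ ψ₂ : G → ℂ, IsIrr ψ₁ → IsIrr ψ₂ → (∀ a b : G,
        red O (kap a b * (L (MonoidHom.id G) ψ₁ a * L (MonoidHom.id G) ψ₂ b +
          L (MonoidHom.id G) ψ₂ a * L (MonoidHom.id G) ψ₁ b)) = Lam O lam ⟨a, b, false⟩) →
        ψ₁ ∈ B ∧ ψ₂ ∈ B := by
      intro ψ₁ ψ₂ i1 i2 hk
      have e : ∀ a : G, red O (omega ψ₁ a) = lam a ∧ red O (omega ψ₂ a) = lam a := by
        intro a
        have m1 := i1.omega_mem O a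
        have m2 := i2.omega_mem O a
        have m1' := i1.omega_mem O 1
        have m2' := i2.omega_mem O 1
        have q1 := hk a 1
        have q2 := hk a a
        rw [← omega_eq_L i1, ← omega_eq_L i2, ← omega_eq_L i1, ← omega_eq_L i2] at q1
        rw [← omega_eq_L i1, ← omega_eq_L i2] at q2
        rw [red_mul (kap_mem h2 _ _) (O.add_mem _ _ (O.mul_mem _ _ m1 m2') (O.mul_mem _ _ m2 m1')),
          red_add (O.mul_mem _ _ m1 m2') (O.mul_mem _ _ m2 m1'), red_mul m1 m2', red_mul m2 m1',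
          omega_one i1, omega_one i2, red_one, mul_one, mul_one] at q1
        rw [red_mul (kap_mem h2 _ _) (O.add_mem _ _ (O.mul_mem _ _ m1 m2) (O.mul_mem _ _ m2 m1)),
          red_add (O.mul_mem _ _ m1 m2) (O.mul_mem _ _ m2 m1), red_mul m1 m2, red_mul m2 m1] at q2
        have q1' : red O (kap a 1) * (red O (omega ψ₁ a) + red O (omega ψ₂ a)) =
            red O (kap a 1) * (2 * (lam a * lam 1)) := q1
        have q2' : red O (kap a a) * (red O (omega ψ₁ a) * red O (omega ψ₂ a) +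
            red O (omega ψ₂ a) * red O (omega ψ₁ a)) =
            red O (kap a a) * (2 * (lam a * lam a)) := q2
        have hka : red O ((2 : ℂ)⁻¹) ≠ 0 := fun h => by rw [h, zero_mul] at hh; exact zero_ne_one hh
        have k1 : red O (kap a 1) ≠ 0 := by
          unfold kap
          split_ifs
          · rw [one_div]; exact hka
          · rw [red_one]; exact one_ne_zero
        have k2 : red O (kap a a) ≠ 0 := by
          unfold kap
          rw [if_pos (IsConj.refl a), one_div]; exact hka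
        have r1 := mul_left_cancel₀ k1 q1'
        have r2 := mul_left_cancel₀ k2 q2'
        rw [lam1, mul_one] at r1
        have r3 : red O (omega ψ₁ a) * red O (omega ψ₂ a) = lam a * lam a := by
          apply mul_left_cancel₀ h2ne
          linear_combination r2
        have r4 : (red O (omega ψ₁ a) - lam a) ^ 2 = 0 := by
          linear_combination (red O (omega ψ₁ a)) * r1 - r3
        have r5 := sub_eq_zero.mp (pow_eq_zero_iff two_ne_zero |>.mp r4)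
        refine ⟨r5, ?_⟩
        rw [r5] at r1
        linear_combination r1
      constructor
      · by_contra hn
        obtain ⟨x, hx⟩ := hB.exists_ne hθ₀ i1 hn
        exact hx (e x).1.symm
      · by_contra hn
        obtain ⟨x, hx⟩ := hB.exists_ne hθ₀ i2 hn
        exact hx (e x).2.symm
    rcases cover hχ with ⟨θ₁, θ₂, i1, i2, hne, rfl⟩ | ⟨θ, i1, rfl⟩ | ⟨θ, i1, rfl⟩
    · have := key θ₁ θ₂ i1 i2 fun a b => by
        rw [← L_ind_base (IsIrr.one_ne i1) (IsIrr.one_ne i2)]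
        exact hr ⟨a, b, false⟩
      exact Or.inl ⟨θ₁, this.1, θ₂, this.2, hne, rfl⟩
    · have := key θ θ i1 i1 fun a b => by
        rw [← L_ext_base (IsIrr.one_ne i1) 1]
        exact hr ⟨a, b, false⟩
      exact Or.inr ⟨θ, this.1, Or.inl rfl⟩
    · have := key θ θ i1 i1 fun a b => by
        rw [← L_ext_base (IsIrr.one_ne i1) (-1)]
        exact hr ⟨a, b, false⟩
      exact Or.inr ⟨θ, this.1, Or.inr rfl⟩

end block

end Pool.Agent.Q259.BW
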