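import Pool.Agent.Q259.BW.Tr
import Pool.Agent.Q90.WR.Tower

/-!
# Numbers of characters of height zero in the block of the wreath product
-/

set_option autoImplicit false
set_option linter.unusedSectionVars false

open scoped BigOperators Classical

noncomputable section

namespace Pool.Agent.Q259.BW

open Pool.Agent.Q90.WR Pool.Agent.H254R3.IN

/-- The characters of height zero in the `p`-block `B` of `G` with defect group `D`: the
`χ ∈ B` with `χ(1)_p = |G : D|_p`. -/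
def Irr0 (p : ℕ) {G : Type} [Group G] (D : Subgroup G) (B : Set (G → ℂ)) : Set (G → ℂ) :=
  {χ | χ ∈ B ∧ ∃ n : ℕ, (n : ℂ) = χ 1 ∧ n.factorization p = D.index.factorization p}

/-- The characters in `A` fixed by all field automorphisms `σ ∈ S`. -/
def Fx (S : Set (ℂ ≃+* ℂ)) {G : Type} (A : Set (G → ℂ)) : Set (G → ℂ) :=
  {χ | χ ∈ A ∧ ∀ σ ∈ S, FixedBy σ χ}

/-- For every `σ ∈ S` some odd power of `σ` fixes all characters in `A`. -/
def OddOnS (S : Set (ℂ ≃+* ℂ)) {G : Type} (A : Set (G → ℂ)) : Prop :=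
  ∀ σ ∈ S, ∃ m : ℕ, Odd m ∧ ∀ χ ∈ A, FixedBy (σ ^ m) χ

/-- The set `A` of characters is stable under all `σ ∈ S`. -/
def StableS (S : Set (ℂ ≃+* ℂ)) {G : Type} (A : Set (G → ℂ)) : Prop :=
  ∀ σ ∈ S, ∀ χ ∈ A, (fun g => σ (χ g)) ∈ A

section cnt

variable {G : Type} [Group G] [Fintype G] {O : ValuationSubring ℂ} {p : ℕ} [hp : Fact p.Prime]

open Pool.Agent.Helper884.IC in
theorem card_set {K : Type} [Group K] [Fintype K] {A : Set (K → ℂ)} (hA : ∀ θ ∈ A, IsIrr θ) :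
    Nat.card A = ((Irr K).filter (· ∈ A)).card := by
  have h1 : A = (((Irr K).filter (· ∈ A) : Finset (K → ℂ)) : Set (K → ℂ)) := by
    ext θ
    rw [Finset.coe_filter]
    constructor
    · intro h
      exact ⟨Pool.Agent.Helper884.IC.mem_Irr.mpr (hA θ h), h⟩
    · intro h
      exact h.2
  conv_lhs => rw [h1]
  rw [Nat.card_coe_set_eq, Set.ncard_coe_finset]

open Pool.Agent.Helper884.IC in
theorem card_WrS {A : Set (G → ℂ)} (hA : ∀ θ ∈ A, IsIrr θ) :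
    2 * (Nat.card (WrS A) : ℤ) = (Nat.card A : ℤ) ^ 2 + 3 * Nat.card A := by
  have h := count (G := G) (fun χ => χ ∈ WrS A)
  rw [card_set (WrS_irr hA), card_set hA]
  have h1 : ∀ d : DecidablePred (fun t : (G → ℂ) × (G → ℂ) => ind2 t.1 t.2 ∈ WrS A),
      @Finset.filter _ _ d ((Irr G).offDiag) = ((Irr G).filter (· ∈ A)).offDiag := by
    intro d
    ext t
    simp only [Finset.mem_filter, Finset.mem_offDiag, Pool.Agent.Helper884.IC.mem_Irr]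
    constructor
    · rintro ⟨⟨a1, a2, hne⟩, a3⟩
      rw [mem_WrS_ind hA a1 a2 hne] at a3
      exact ⟨⟨a1, a3.1⟩, ⟨a2, a3.2⟩, hne⟩
    · rintro ⟨⟨a1, a3⟩, ⟨a2, a5⟩, hne⟩
      exact ⟨⟨a1, a2, hne⟩, (mem_WrS_ind hA a1 a2 hne).mpr ⟨a3, a5⟩⟩
  have h2 : ∀ ε : ℂ, (ε = 1 ∨ ε = -1) →
      ∀ d : DecidablePred (fun θ : G → ℂ => ext2 ε θ ∈ WrS A),
      @Finset.filter _ _ d (Irr G) = (Irr G).filter (· ∈ A) := by
    intro ε hε d
    ext θ
    simp only [Finset.mem_filter, Pool.Agent.Helper884.IC.mem_Irr]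
    refine and_congr_right fun hθ => ?_
    exact mem_WrS_ext hA hθ hε
  rw [h1, h2 1 (Or.inl rfl), h2 (-1) (Or.inr rfl), Finset.offDiag_card] at h
  set x := ((Irr G).filter (· ∈ A)).card with hx
  have h3 : x ≤ x * x := Nat.le_mul_self _
  have h4 : 2 * ((Irr (Wr G)).filter fun χ => χ ∈ WrS A).card = x * x - x + 2 * x + 2 * x := h
  zify [h3] at h4
  linear_combination h4

omit [Fintype G] in
theorem fixed_ind2' [Finite G] {σ : ℂ ≃+* ℂ} {θ₁ θ₂ : G → ℂ} (h1 : IsIrr θ₁) (h2 : IsIrr θ₂)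
    (hne : θ₁ ≠ θ₂) {m : ℕ} (hm : Odd m) (hf : FixedBy (σ ^ m) θ₁) :
    FixedBy σ (ind2 θ₁ θ₂) ↔ FixedBy σ θ₁ ∧ FixedBy σ θ₂ := by
  have := Fintype.ofFinite G
  rw [fixedBy_iff]
  constructor
  · intro h
    have h3 : ind2 θ₁ θ₂ = ind2 (fun g => σ (θ₁ g)) (fun g => σ (θ₂ g)) := by
      conv_lhs => rw [← h]
      funext x
      exact gal_ind2 θ₁ θ₂ x
    rcases ind2_inj h1 h2 (irr_gal σ h1) (irr_gal σ h2) hne h3 with ⟨h4, h5⟩ | ⟨h4, h5⟩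
    · exact ⟨fixedBy_iff.mpr h4.symm, fixedBy_iff.mpr h5.symm⟩
    · exfalso
      have h6 : FixedBy (σ ^ 2) θ₁ := by
        intro g
        rw [pow_two, RingAut.mul_apply]
        have e1 : σ (θ₁ g) = θ₂ g := (congrFun h5 g).symm
        have e2 : σ (θ₂ g) = θ₁ g := (congrFun h4 g).symm
        rw [e1, e2]
      have h7 := fixed_of_sq hm hf h6
      exact hne ((fixedBy_iff.mp h7).symm.trans h5.symm)
  · rintro ⟨h3, h4⟩
    funext x
    rw [gal_ind2, fixedBy_iff.mp h3, fixedBy_iff.mp h4]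

theorem fx_WrS {S : Set (ℂ ≃+* ℂ)} {A : Set (G → ℂ)} (ho : OddOnS S A) (hA : ∀ θ ∈ A, IsIrr θ) :
    Fx S (WrS A) = WrS (Fx S A) := by
  have hF : ∀ θ ∈ Fx S A, IsIrr θ := fun θ hθ => hA θ hθ.1
  have e1 : ∀ θ₁ ∈ A, ∀ θ₂ ∈ A, θ₁ ≠ θ₂ → ((∀ σ ∈ S, FixedBy σ (ind2 θ₁ θ₂)) ↔
      (∀ σ ∈ S, FixedBy σ θ₁) ∧ ∀ σ ∈ S, FixedBy σ θ₂) := by
    intro θ₁ h1 θ₂ h2 hne
    rw [← forall₂_and]
    refine forall₂_congr fun σ hσ => ?_
    obtain ⟨m, hm, hf⟩ := ho σ hσ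
    exact fixed_ind2' (hA _ h1) (hA _ h2) hne hm (hf _ h1)
  have e2 : ∀ θ ∈ A, ∀ ε : ℂ, ε * ε = 1 → (∀ σ : ℂ ≃+* ℂ, σ ε = ε) →
      ((∀ σ ∈ S, FixedBy σ (ext2 ε θ)) ↔ ∀ σ ∈ S, FixedBy σ θ) := by
    intro θ h1 ε h2 h3
    refine forall₂_congr fun σ _ => ?_
    exact fixed_ext2 h2 (h3 σ) (hA _ h1)
  have s1 : ∀ σ : ℂ ≃+* ℂ, σ 1 = 1 := fun σ => map_one σ
  have s2 : ∀ σ : ℂ ≃+* ℂ, σ (-1) = -1 := fun σ => by simp
  ext χ
  constructor
  · rintro ⟨h | h, hfix⟩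
    · obtain ⟨θ₁, h1, θ₂, h2, hne, rfl⟩ := h
      have := (e1 _ h1 _ h2 hne).mp hfix
      exact Or.inl ⟨θ₁, ⟨h1, this.1⟩, θ₂, ⟨h2, this.2⟩, hne, rfl⟩
    · obtain ⟨θ, h1, rfl | rfl⟩ := h
      · exact Or.inr ⟨θ, ⟨h1, (e2 _ h1 _ (by norm_num) s1).mp hfix⟩, Or.inl rfl⟩
      · exact Or.inr ⟨θ, ⟨h1, (e2 _ h1 _ (by norm_num) s2).mp hfix⟩, Or.inr rfl⟩
  · rintro (⟨θ₁, h1, θ₂, h2, hne, rfl⟩ | ⟨θ, h1, rfl | rfl⟩)
    · exact ⟨Or.inl ⟨θ₁, h1.1, θ₂, h2.1, hne, rfl⟩,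
        (e1 _ h1.1 _ h2.1 hne).mpr ⟨h1.2, h2.2⟩⟩
    · exact ⟨Or.inr ⟨θ, h1.1, Or.inl rfl⟩, (e2 _ h1.1 _ (by norm_num) s1).mpr h1.2⟩
    · exact ⟨Or.inr ⟨θ, h1.1, Or.inr rfl⟩, (e2 _ h1.1 _ (by norm_num) s2).mpr h1.2⟩

theorem oddOnS_WrS {S : Set (ℂ ≃+* ℂ)} {A : Set (G → ℂ)} (ho : OddOnS S A)
    (hA : ∀ θ ∈ A, IsIrr θ) : OddOnS S (WrS A) := by
  intro σ hσ
  obtain ⟨m, hm, hf⟩ := ho σ hσ
  refine ⟨m, hm, ?_⟩
  rintro χ (⟨θ₁, h1, θ₂, h2, hne, rfl⟩ | ⟨θ, h1, rfl | rfl⟩)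
  · intro x
    rw [gal_ind2, fixedBy_iff.mp (hf θ₁ h1), fixedBy_iff.mp (hf θ₂ h2)]
  · exact (fixed_ext2 (by norm_num) (map_one _) (hA _ h1)).mpr (hf θ h1)
  · exact (fixed_ext2 (by norm_num) (by simp) (hA _ h1)).mpr (hf θ h1)

theorem stable_WrS {S : Set (ℂ ≃+* ℂ)} {A : Set (G → ℂ)} (ho : StableS S A) :
    StableS S (WrS A) := by
  intro σ hσ
  rintro χ (⟨θ₁, h1, θ₂, h2, hne, rfl⟩ | ⟨θ, h1, rfl | rfl⟩)
  · refine Or.inl ⟨_, ho σ hσ θ₁ h1, _, ho σ hσ θ₂ h2, ?_, ?_⟩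
    · intro h
      apply hne
      funext g
      exact σ.injective (congrFun h g)
    · funext x
      exact gal_ind2 θ₁ θ₂ x
  · refine Or.inr ⟨_, ho σ hσ θ h1, Or.inl ?_⟩
    funext x
    exact gal_ext2 (map_one σ) θ x
  · refine Or.inr ⟨_, ho σ hσ θ h1, Or.inr ?_⟩
    funext x
    exact gal_ext2 (by simp) θ x

/-- heights are not negative -/
theorem height_nonneg (hpO : (p : ℂ) ∈ O.nonunits) {B : Set (G → ℂ)} (hB : IsBlock O B)
    {D : Subgroup G} (hD : IsDefectGroup p O B D) {θ : G → ℂ} (hθ : θ ∈ B) {n : ℕ}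
    (hn : (n : ℂ) = θ 1) : D.index.factorization p ≤ n.factorization p := by
  have h1 := uu_mem hpO hB hD hθ
  have hn0 : n ≠ 0 := by
    rintro rfl
    exact (hB.irr θ hθ).one_ne (by rw [← hn, Nat.cast_zero])
  have hi0 : D.index ≠ 0 := Subgroup.index_ne_zero_of_finite
  have h2 := D.card_mul_index
  have h3 : uu D θ * (D.index : ℂ) = n := by
    unfold uu
    rw [← h2, ← hn]
    have e1 : (Nat.card D : ℂ) ≠ 0 := by exact_mod_cast Nat.card_pos.ne'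
    have e2 : (D.index : ℂ) ≠ 0 := by exact_mod_cast hi0
    push_cast
    field_simp
  obtain ⟨a1, a2⟩ := pPrimePart_spec (p := p) hn0
  obtain ⟨b1, b2⟩ := pPrimePart_spec (p := p) hi0
  by_contra hlt
  push Not at hlt
  obtain ⟨k, hk⟩ := Nat.exists_eq_add_of_lt hlt
  -- `n' = p ^ (k + 1) * g' * u`
  have h4 : (pPrimePart p n : ℂ) = (p : ℂ) ^ (k + 1) * (pPrimePart p D.index : ℂ) * uu D θ := by
    have e0 : ((p : ℂ) ^ n.factorization p) ≠ 0 := pow_ne_zero _ (by exact_mod_cast hp.out.ne_zero)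
    apply mul_left_cancel₀ e0
    have e1 : (n : ℂ) = (p : ℂ) ^ n.factorization p * (pPrimePart p n : ℂ) := by exact_mod_cast a1
    have e2 : (D.index : ℂ) = (p : ℂ) ^ (n.factorization p + k + 1) * (pPrimePart p D.index : ℂ) := by
      rw [← hk]
      exact_mod_cast b1
    rw [← e1, ← h3, e2]
    ring
  have m1 := natCast_mem' (O := O) (pPrimePart p D.index)
  have m0 : (p : ℂ) ∈ O := nonunits_mem hpO
  have h5 : red O (pPrimePart p n : ℂ) = 0 := by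
    rw [h4, red_mul (O.mul_mem _ _ (pow_mem m0 _) m1) h1, red_mul (pow_mem m0 _) m1, pow_succ,
      red_mul (pow_mem m0 _) m0, red_eq_zero hpO]
    ring
  exact a2 ((red_nat_eq_zero_iff hpO _).mp h5)

theorem irr0_WrS (hp2 : p ≠ 2) (hpO : (p : ℂ) ∈ O.nonunits) {B : Set (G → ℂ)}
    (hB : IsBlock O B) {D : Subgroup G} (hD : IsDefectGroup p O B D) :
    Irr0 p (dbl D) (WrS B) = WrS (Irr0 p D B) := by
  have hi := hB.irr
  have h2p : (2 : ℕ).factorization p = 0 := Nat.factorization_eq_zero_of_not_dvd fun h =>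
    hp2 ((Nat.prime_dvd_prime_iff_eq hp.out Nat.prime_two).mp h)
  have hi0 : D.index ≠ 0 := Subgroup.index_ne_zero_of_finite
  have hidx : (dbl D).index.factorization p = D.index.factorization p + D.index.factorization p := by
    rw [index_dbl, Nat.factorization_mul two_ne_zero (pow_ne_zero _ hi0), Nat.factorization_pow]
    simp only [Finsupp.coe_add, Finsupp.coe_smul, Pi.add_apply, Pi.smul_apply, smul_eq_mul, h2p]
    ring
  have key1 : ∀ θ₁ ∈ B, ∀ θ₂ ∈ B, ((∃ n : ℕ, (n : ℂ) = ind2 θ₁ θ₂ 1 ∧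
      n.factorization p = (dbl D).index.factorization p) ↔
      (∃ n : ℕ, (n : ℂ) = θ₁ 1 ∧ n.factorization p = D.index.factorization p) ∧
      ∃ n : ℕ, (n : ℂ) = θ₂ 1 ∧ n.factorization p = D.index.factorization p) := by
    intro θ₁ h1 θ₂ h2
    obtain ⟨n₁, p1, e1⟩ := (hi _ h1).deg
    obtain ⟨n₂, p2, e2⟩ := (hi _ h2).deg
    have q1 := height_nonneg hpO hB hD h1 e1
    have q2 := height_nonneg hpO hB hD h2 e2
    have e3 : ind2 θ₁ θ₂ 1 = ((2 * (n₁ * n₂) : ℕ) : ℂ) := by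
      change θ₁ 1 * θ₂ 1 + θ₂ 1 * θ₁ 1 = _
      rw [← e1, ← e2]
      push_cast
      ring
    have e4 : (2 * (n₁ * n₂)).factorization p = n₁.factorization p + n₂.factorization p := by
      rw [Nat.factorization_mul two_ne_zero (mul_ne_zero p1.ne' p2.ne'),
        Nat.factorization_mul p1.ne' p2.ne']
      simp only [Finsupp.coe_add, Pi.add_apply, h2p, zero_add]
    rw [e3, ← e1, ← e2, hidx]
    constructor
    · rintro ⟨n, hn, hf⟩
      have : n = 2 * (n₁ * n₂) := by exact_mod_cast hn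
      subst this
      rw [e4] at hf
      exact ⟨⟨n₁, rfl, by omega⟩, ⟨n₂, rfl, by omega⟩⟩
    · rintro ⟨⟨n, hn, hf⟩, ⟨n', hn', hf'⟩⟩
      have : n = n₁ := by exact_mod_cast hn
      subst this
      have : n' = n₂ := by exact_mod_cast hn'
      subst this
      exact ⟨_, rfl, by rw [e4]; omega⟩
  have key2 : ∀ ε : ℂ, ∀ θ ∈ B, ((∃ n : ℕ, (n : ℂ) = ext2 ε θ 1 ∧
      n.factorization p = (dbl D).index.factorization p) ↔
      ∃ n : ℕ, (n : ℂ) = θ 1 ∧ n.factorization p = D.index.factorization p) := by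
    intro ε θ h1
    obtain ⟨n₁, p1, e1⟩ := (hi _ h1).deg
    have q1 := height_nonneg hpO hB hD h1 e1
    have e3 : ext2 ε θ 1 = ((n₁ * n₁ : ℕ) : ℂ) := by
      change θ 1 * θ 1 = _
      rw [← e1]
      push_cast
      ring
    have e4 : (n₁ * n₁).factorization p = n₁.factorization p + n₁.factorization p := by
      rw [Nat.factorization_mul p1.ne' p1.ne']
      rfl
    rw [e3, ← e1, hidx]
    constructor
    · rintro ⟨n, hn, hf⟩
      have : n = n₁ * n₁ := by exact_mod_cast hn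
      subst this
      rw [e4] at hf
      exact ⟨n₁, rfl, by omega⟩
    · rintro ⟨n, hn, hf⟩
      have : n = n₁ := by exact_mod_cast hn
      subst this
      exact ⟨_, rfl, by rw [e4]; omega⟩
  ext χ
  constructor
  · rintro ⟨h | h, hdeg⟩
    · obtain ⟨θ₁, h1, θ₂, h2, hne, rfl⟩ := h
      have := (key1 _ h1 _ h2).mp hdeg
      exact Or.inl ⟨θ₁, ⟨h1, this.1⟩, θ₂, ⟨h2, this.2⟩, hne, rfl⟩
    · obtain ⟨θ, h1, rfl | rfl⟩ := h
      · exact Or.inr ⟨θ, ⟨h1, (key2 _ _ h1).mp hdeg⟩, Or.inl rfl⟩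
      · exact Or.inr ⟨θ, ⟨h1, (key2 _ _ h1).mp hdeg⟩, Or.inr rfl⟩
  · rintro (⟨θ₁, h1, θ₂, h2, hne, rfl⟩ | ⟨θ, h1, rfl | rfl⟩)
    · exact ⟨Or.inl ⟨θ₁, h1.1, θ₂, h2.1, hne, rfl⟩, (key1 _ h1.1 _ h2.1).mpr ⟨h1.2, h2.2⟩⟩
    · exact ⟨Or.inr ⟨θ, h1.1, Or.inl rfl⟩, (key2 _ _ h1.1).mpr h1.2⟩
    · exact ⟨Or.inr ⟨θ, h1.1, Or.inr rfl⟩, (key2 _ _ h1.1).mpr h1.2⟩

end cnt

section tr

variable {H K : Type} [Group H] [Group K] (e : H ≃* K) {p : ℕ}

theorem card_pull (A : Set (K → ℂ)) : Nat.card (pull e A) = Nat.card A := by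
  refine Nat.card_congr (Equiv.subtypeEquiv (Equiv.arrowCongr e.toEquiv (Equiv.refl ℂ)) ?_)
  intro χ
  rfl

theorem irr0_pull (E : Subgroup K) (B : Set (K → ℂ)) :
    Irr0 p (E.comap e.toMonoidHom) (pull e B) = pull e (Irr0 p E B) := by
  have h1 : (E.comap e.toMonoidHom).index = E.index :=
    Subgroup.index_comap_of_surjective _ e.surjective
  ext χ
  unfold Irr0 pull
  simp only [Set.mem_ofPred_eq, h1, map_one]

theorem fx_pull (S : Set (ℂ ≃+* ℂ)) (A : Set (K → ℂ)) : Fx S (pull e A) = pull e (Fx S A) := by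
  ext χ
  unfold Fx pull
  simp only [Set.mem_ofPred_eq]
  refine and_congr_right fun _ => forall₂_congr fun σ _ => ?_
  constructor
  · intro h k
    exact h (e.symm k)
  · intro h g
    have := h (e g)
    simpa using this

theorem oddOnS_pull {S : Set (ℂ ≃+* ℂ)} {A : Set (K → ℂ)} (ho : OddOnS S A) :
    OddOnS S (pull e A) := by
  intro σ hσ
  obtain ⟨m, hm, hf⟩ := ho σ hσ
  refine ⟨m, hm, fun χ hχ g => ?_⟩
  have := hf _ hχ (e g)
  simpa using this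

theorem stable_pull {S : Set (ℂ ≃+* ℂ)} {A : Set (K → ℂ)} (ho : StableS S A) :
    StableS S (pull e A) :=
  fun σ hσ _ hχ => ho σ hσ _ hχ

end tr

end Pool.Agent.Q259.BW
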