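import Pool.Agent.Q90.WR.Nrm
import Pool.Agent.H254R3.IN.Fin

/-!
# Class sums in the wreath product `G ≀ C₂`
-/

set_option autoImplicit false

open scoped BigOperators Classical

noncomputable section

namespace Pool.Agent.Q259.BW

open Pool.Agent.Q90.WR Pool.Agent.H254R3.IN

section conj

variable {G : Type} [Group G]

theorem isConj_false {a b : G} {y : Wr G} : IsConj (⟨a, b, false⟩ : Wr G) y ↔
    y.s = false ∧ ((IsConj a y.a ∧ IsConj b y.b) ∨ (IsConj a y.b ∧ IsConj b y.a)) := by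
  obtain ⟨c, d, t⟩ := y
  rw [isConj_iff]
  constructor
  · rintro ⟨⟨u, v, s⟩, h⟩
    cases s
    · rw [Wr.mk_false_mul, Wr.inv_false, Wr.mk_false_mul] at h
      simp only [Wr.mk.injEq] at h
      obtain ⟨h1, h2, h3⟩ := h
      exact ⟨h3.symm, Or.inl ⟨isConj_iff.mpr ⟨u, h1⟩, isConj_iff.mpr ⟨v, h2⟩⟩⟩
    · rw [Wr.mk_true_mul, Wr.inv_true] at h
      simp only [Bool.not_false, Wr.mk_true_mul, Bool.not_true, Wr.mk.injEq] at h
      obtain ⟨h1, h2, h3⟩ := h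
      exact ⟨h3.symm, Or.inr ⟨isConj_iff.mpr ⟨v, h2⟩, isConj_iff.mpr ⟨u, h1⟩⟩⟩
  · rintro ⟨h1, h2⟩
    simp only at h1 h2
    subst h1
    rcases h2 with ⟨h2, h3⟩ | ⟨h2, h3⟩
    · obtain ⟨u, hu⟩ := isConj_iff.mp h2
      obtain ⟨v, hv⟩ := isConj_iff.mp h3
      exact ⟨⟨u, v, false⟩, by simp [Wr.mk_false_mul, Wr.inv_false, hu, hv]⟩
    · obtain ⟨u, hu⟩ := isConj_iff.mp h2
      obtain ⟨v, hv⟩ := isConj_iff.mp h3
      exact ⟨⟨v, u, true⟩, by simp [Wr.mk_true_mul, Wr.inv_true, hu, hv]⟩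

theorem isConj_true {a b : G} {y : Wr G} : IsConj (⟨a, b, true⟩ : Wr G) y ↔
    y.s = true ∧ IsConj (a * b) (y.a * y.b) := by
  obtain ⟨c, d, t⟩ := y
  rw [isConj_iff]
  constructor
  · rintro ⟨⟨u, v, s⟩, h⟩
    cases s
    · rw [Wr.mk_false_mul, Wr.inv_false] at h
      simp only [Wr.mk_true_mul, Bool.not_false, Wr.mk.injEq] at h
      obtain ⟨h1, h2, h3⟩ := h
      refine ⟨h3.symm, isConj_iff.mpr ⟨u, ?_⟩⟩
      rw [← h1, ← h2]
      group
    · rw [Wr.mk_true_mul, Wr.inv_true] at h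
      simp only [Bool.not_true, Wr.mk_false_mul, Wr.mk.injEq] at h
      obtain ⟨h1, h2, h3⟩ := h
      refine ⟨h3.symm, isConj_iff.mpr ⟨u * a⁻¹, ?_⟩⟩
      rw [← h1, ← h2]
      group
  · rintro ⟨h1, h2⟩
    simp only at h1 h2
    subst h1
    obtain ⟨u, hu⟩ := isConj_iff.mp h2
    refine ⟨⟨u, c⁻¹ * u * a, false⟩, ?_⟩
    rw [Wr.mk_false_mul, Wr.inv_false, Wr.mk_true_mul]
    simp only [Bool.not_false, Wr.mk.injEq, and_true]
    refine ⟨by group, ?_⟩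
    have h3 : u * a * b * u⁻¹ = c * d := by rw [← hu]; group
    calc c⁻¹ * u * a * b * u⁻¹ = c⁻¹ * (u * a * b * u⁻¹) := by group
      _ = d := by rw [h3]; group

end conj

/-- the functor `G ↦ G ≀ C₂` -/
def wmap {K G : Type} (π : K → G) (w : Wr K) : Wr G := ⟨π w.a, π w.b, w.s⟩

section sums

variable {K G : Type} [Group K] [Fintype K] [Group G]

/-- normalised sum of the values of `ψ` over the elements whose image is conjugate to `a` -/
def L (π : K → G) (ψ : K → ℂ) (a : G) : ℂ := (∑ c : K, if IsConj a (π c) then ψ c else 0) / ψ 1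

/-- the factor in the formulas for the wreath product -/
def kap (a b : G) : ℂ := if IsConj a b then 1 / 2 else 1

theorem sum_L {π : K → G} {ψ : K → ℂ} (h : ψ 1 ≠ 0) (a : G) :
    (∑ c : K, if IsConj a (π c) then ψ c else 0) = ψ 1 * L π ψ a := by
  unfold L
  field_simp

theorem sum_two (π : K → G) (φ ψ : K → ℂ) (a b : G) :
    ∑ c : K, ∑ d : K, (if IsConj a (π c) ∧ IsConj b (π d) then φ c * ψ d else 0) =
      (∑ c : K, if IsConj a (π c) then φ c else 0) * ∑ d : K, if IsConj b (π d) then ψ d else 0 := by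
  rw [Finset.sum_mul_sum]
  refine Finset.sum_congr rfl fun c _ => Finset.sum_congr rfl fun d _ => ?_
  by_cases h1 : IsConj a (π c)
  · by_cases h2 : IsConj b (π d)
    · rw [if_pos ⟨h1, h2⟩, if_pos h1, if_pos h2]
    · rw [if_neg (fun h => h2 h.2), if_neg h2, mul_zero]
  · rw [if_neg (fun h => h1 h.1), if_neg h1, zero_mul]

/-- the sum over a class of the base group -/
theorem sum_base (π : K → G) (f : Wr K → ℂ) (a b : G) :
    (∑ w : Wr K, if IsConj (⟨a, b, false⟩ : Wr G) (wmap π w) then f w else 0) =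
      kap a b * (∑ c : K, ∑ d : K, (if IsConj a (π c) ∧ IsConj b (π d) then f ⟨c, d, false⟩ else 0) +
        ∑ c : K, ∑ d : K, (if IsConj b (π c) ∧ IsConj a (π d) then f ⟨c, d, false⟩ else 0)) := by
  rw [Wr.sum_eq]
  have h1 : ∀ c d : K, (if IsConj (⟨a, b, false⟩ : Wr G) (wmap π ⟨c, d, true⟩) then
      f ⟨c, d, true⟩ else 0) = 0 := by
    intro c d
    rw [if_neg]
    rw [isConj_false]
    simp [wmap]
  simp_rw [h1]
  simp only [Finset.sum_const_zero, add_zero]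
  have h2 : ∀ c d : K, (if IsConj (⟨a, b, false⟩ : Wr G) (wmap π ⟨c, d, false⟩) then
      f ⟨c, d, false⟩ else 0) = kap a b * ((if IsConj a (π c) ∧ IsConj b (π d) then f ⟨c, d, false⟩
        else 0) + (if IsConj b (π c) ∧ IsConj a (π d) then f ⟨c, d, false⟩ else 0)) := by
    intro c d
    have h3 : IsConj (⟨a, b, false⟩ : Wr G) (wmap π ⟨c, d, false⟩) ↔
        ((IsConj a (π c) ∧ IsConj b (π d)) ∨ (IsConj b (π c) ∧ IsConj a (π d))) := by
      rw [isConj_false]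
      simp only [wmap, true_and]
      constructor
      · rintro (h | ⟨h, h'⟩)
        · exact Or.inl h
        · exact Or.inr ⟨h', h⟩
      · rintro (h | ⟨h, h'⟩)
        · exact Or.inl h
        · exact Or.inr ⟨h', h⟩
    by_cases hab : IsConj a b
    · have e1 : ∀ z : G, IsConj a z ↔ IsConj b z := fun z =>
        ⟨fun h => hab.symm.trans h, fun h => hab.trans h⟩
      unfold kap
      rw [if_pos hab]
      simp only [h3, e1]
      by_cases h : IsConj b (π c) ∧ IsConj b (π d)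
      · simp only [h, or_self, if_true, and_self]
        ring
      · simp only [h, or_self, if_false]
        ring
    · unfold kap
      rw [if_neg hab, one_mul]
      by_cases h4 : IsConj a (π c) ∧ IsConj b (π d)
      · have h5 : ¬ (IsConj b (π c) ∧ IsConj a (π d)) := fun h =>
          hab (h4.1.trans h.1.symm)
        rw [if_pos h4, if_neg h5, if_pos (h3.mpr (Or.inl h4)), add_zero]
      · by_cases h5 : IsConj b (π c) ∧ IsConj a (π d)
        · rw [if_neg h4, if_pos h5, if_pos (h3.mpr (Or.inr h5)), zero_add]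
        · rw [if_neg h4, if_neg h5, if_neg (fun h => (h3.mp h).elim h4 h5), add_zero]
  simp_rw [h2, mul_add, Finset.sum_add_distrib, Finset.mul_sum]

theorem L_ind_base {π : K → G} {ψ₁ ψ₂ : K → ℂ} (h1 : ψ₁ 1 ≠ 0) (h2 : ψ₂ 1 ≠ 0) (a b : G) :
    L (wmap π) (ind2 ψ₁ ψ₂) ⟨a, b, false⟩ =
      kap a b * (L π ψ₁ a * L π ψ₂ b + L π ψ₂ a * L π ψ₁ b) := by
  have e1 : L (wmap π) (ind2 ψ₁ ψ₂) ⟨a, b, false⟩ =
      (∑ w : Wr K, if IsConj (⟨a, b, false⟩ : Wr G) (wmap π w) then ind2 ψ₁ ψ₂ w else 0) /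
        (ψ₁ 1 * ψ₂ 1 + ψ₂ 1 * ψ₁ 1) := rfl
  rw [e1, sum_base]
  have e2 : ∀ x y : G, ∑ c : K, ∑ d : K, (if IsConj x (π c) ∧ IsConj y (π d) then
      ind2 ψ₁ ψ₂ ⟨c, d, false⟩ else 0) =
      ψ₁ 1 * ψ₂ 1 * (L π ψ₁ x * L π ψ₂ y + L π ψ₂ x * L π ψ₁ y) := by
    intro x y
    have e3 : ∀ c d : K, (if IsConj x (π c) ∧ IsConj y (π d) then
        ind2 ψ₁ ψ₂ ⟨c, d, false⟩ else 0) = (if IsConj x (π c) ∧ IsConj y (π d) then
        ψ₁ c * ψ₂ d else 0) + (if IsConj x (π c) ∧ IsConj y (π d) then ψ₂ c * ψ₁ d else 0) := by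
      intro c d
      split_ifs
      · rfl
      · simp
    simp_rw [e3, Finset.sum_add_distrib]
    rw [sum_two, sum_two, sum_L h1, sum_L h2, sum_L h1, sum_L h2]
    ring
  rw [e2, e2]
  have h3 : ψ₁ 1 * ψ₂ 1 + ψ₂ 1 * ψ₁ 1 ≠ 0 := by
    have : ψ₁ 1 * ψ₂ 1 + ψ₂ 1 * ψ₁ 1 = 2 * (ψ₁ 1 * ψ₂ 1) := by ring
    rw [this]
    exact mul_ne_zero two_ne_zero (mul_ne_zero h1 h2)
  rw [div_eq_iff h3]
  ring

theorem L_ext_base {π : K → G} {ψ : K → ℂ} (h1 : ψ 1 ≠ 0) (ε : ℂ) (a b : G) :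
    L (wmap π) (ext2 ε ψ) ⟨a, b, false⟩ = kap a b * (L π ψ a * L π ψ b + L π ψ a * L π ψ b) := by
  have e1 : L (wmap π) (ext2 ε ψ) ⟨a, b, false⟩ =
      (∑ w : Wr K, if IsConj (⟨a, b, false⟩ : Wr G) (wmap π w) then ext2 ε ψ w else 0) /
        (ψ 1 * ψ 1) := rfl
  rw [e1, sum_base]
  have e2 : ∀ x y : G, ∑ c : K, ∑ d : K, (if IsConj x (π c) ∧ IsConj y (π d) then
      ext2 ε ψ ⟨c, d, false⟩ else 0) = ψ 1 * ψ 1 * (L π ψ x * L π ψ y) := by
    intro x y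
    have e3 : ∀ c d : K, (if IsConj x (π c) ∧ IsConj y (π d) then
        ext2 ε ψ ⟨c, d, false⟩ else 0) = (if IsConj x (π c) ∧ IsConj y (π d) then
        ψ c * ψ d else 0) := fun c d => rfl
    simp_rw [e3]
    rw [sum_two, sum_L h1, sum_L h1]
    ring
  rw [e2, e2, div_eq_iff (mul_ne_zero h1 h1)]
  ring

theorem L_ind_true {π : K → G} {ψ₁ ψ₂ : K → ℂ} (a b : G) :
    L (wmap π) (ind2 ψ₁ ψ₂) ⟨a, b, true⟩ = 0 := by
  unfold L
  rw [Finset.sum_eq_zero, zero_div]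
  rintro ⟨c, d, s⟩ _
  cases s
  · rw [if_neg]
    rw [isConj_true]
    simp [wmap]
  · simp [ind2]

theorem L_ext_true {π : K →* G} {ψ : K → ℂ} (h1 : ψ 1 ≠ 0) (ε : ℂ) (a b : G) :
    L (wmap π) (ext2 ε ψ) ⟨a, b, true⟩ = ε * ((Nat.card K : ℂ) / ψ 1) * L π ψ (a * b) := by
  have e1 : L (wmap π) (ext2 ε ψ) ⟨a, b, true⟩ =
      (∑ w : Wr K, if IsConj (⟨a, b, true⟩ : Wr G) (wmap π w) then ext2 ε ψ w else 0) /
        (ψ 1 * ψ 1) := rfl
  rw [e1, Wr.sum_eq]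
  have e2 : ∀ c d : K, (if IsConj (⟨a, b, true⟩ : Wr G) (wmap π ⟨c, d, false⟩) then
      ext2 ε ψ ⟨c, d, false⟩ else 0) = 0 := by
    intro c d
    rw [if_neg]
    rw [isConj_true]
    simp [wmap]
  have e3 : ∀ c d : K, (if IsConj (⟨a, b, true⟩ : Wr G) (wmap π ⟨c, d, true⟩) then
      ext2 ε ψ ⟨c, d, true⟩ else 0) = ε * (if IsConj (a * b) (π (c * d)) then ψ (c * d) else 0) := by
    intro c d
    have e4 : IsConj (⟨a, b, true⟩ : Wr G) (wmap π ⟨c, d, true⟩) ↔ IsConj (a * b) (π (c * d)) := by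
      rw [isConj_true]
      simp [wmap]
    by_cases h : IsConj (a * b) (π (c * d))
    · rw [if_pos (e4.mpr h), if_pos h]
      rfl
    · rw [if_neg (fun h' => h (e4.mp h')), if_neg h, mul_zero]
  simp_rw [e2, e3]
  simp only [Finset.sum_const_zero, zero_add]
  have e5 : ∀ c : K, ∑ d : K, ε * (if IsConj (a * b) (π (c * d)) then ψ (c * d) else 0) =
      ε * (ψ 1 * L π ψ (a * b)) := by
    intro c
    rw [← Finset.mul_sum, ← sum_L h1]
    congr 1
    exact Fintype.sum_equiv (Equiv.mulLeft c) _ _ fun d => rfl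
  simp_rw [e5]
  rw [Finset.sum_const, Finset.card_univ, ← Nat.card_eq_fintype_card, nsmul_eq_mul,
    div_eq_iff (mul_ne_zero h1 h1)]
  field_simp

end sums

end Pool.Agent.Q259.BW
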