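import Pool.Agent.Q259.BW.Blk

/-!
# Defect groups and block idempotents of the wreath product
-/

set_option autoImplicit false
set_option linter.unusedSectionVars false

open scoped BigOperators Classical

noncomputable section

namespace Pool.Agent.Q259.BW

open Pool.Agent.Q90.WR Pool.Agent.H254R3.IN

section sylow

variable {G : Type} [Group G] [Finite G] {p : ℕ} [hp : Fact p.Prime]

/-- Sylow subgroups of a subgroup `C`, as subgroups of `G` -/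
theorem sylow_iff (C D : Subgroup G) :
    (∃ P : Sylow p C, D = (P : Subgroup C).map C.subtype) ↔
      D ≤ C ∧ IsPGroup p D ∧ ¬ p ∣ D.relIndex C := by
  constructor
  · rintro ⟨P, rfl⟩
    refine ⟨Subgroup.map_subtype_le _, P.isPGroup'.map _, ?_⟩
    have h1 : ((P : Subgroup C).map C.subtype).subgroupOf C = P :=
      Subgroup.comap_map_eq_self_of_injective C.subtype_injective _
    unfold Subgroup.relIndex
    rw [h1]
    exact P.not_dvd_index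
  · rintro ⟨h1, h2, h3⟩
    have h4 : IsPGroup p (D.subgroupOf C) := h2.comap_subtype
    refine ⟨h4.toSylow h3, ?_⟩
    have h5 : ((h4.toSylow h3 : Sylow p C) : Subgroup C) = D.subgroupOf C := rfl
    rw [h5, Subgroup.subgroupOf_map_subtype, inf_eq_left.mpr h1]

theorem isDefectGroup_iff {O : ValuationSubring ℂ} {B : Set (G → ℂ)} {D : Subgroup G} :
    IsDefectGroup p O B D ↔ ∃ x : G, D ≤ Subgroup.centralizer ({x} : Set G) ∧ IsPGroup p D ∧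
      ¬ p ∣ D.relIndex (Subgroup.centralizer ({x} : Set G)) ∧
      (∀ χ ∈ B, omega χ x ∉ O.nonunits) ∧ blockCoeff B x ∉ O.nonunits := by
  unfold IsDefectGroup
  refine exists_congr fun x => ?_
  rw [sylow_iff]
  tauto

end sylow

section coeff

variable {G : Type} [Group G] [Fintype G] {O : ValuationSubring ℂ}

theorem mem_WrS_ind {A : Set (G → ℂ)} (hA : ∀ θ ∈ A, IsIrr θ) {θ₁ θ₂ : G → ℂ} (i1 : IsIrr θ₁)
    (i2 : IsIrr θ₂) (hne : θ₁ ≠ θ₂) : ind2 θ₁ θ₂ ∈ WrS A ↔ θ₁ ∈ A ∧ θ₂ ∈ A := by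
  constructor
  · rintro (⟨ψ₁, h1, ψ₂, h2, hne', h⟩ | ⟨ψ, h1, h | h⟩)
    · rcases ind2_inj i1 i2 (hA _ h1) (hA _ h2) hne h with ⟨rfl, rfl⟩ | ⟨rfl, rfl⟩
      · exact ⟨h1, h2⟩
      · exact ⟨h2, h1⟩
    · exact absurd h (ind2_ne_ext2 i1 i2 (hA _ h1) hne)
    · exact absurd h (ind2_ne_ext2 i1 i2 (hA _ h1) hne)
  · rintro ⟨h1, h2⟩
    exact Or.inl ⟨θ₁, h1, θ₂, h2, hne, rfl⟩

theorem mem_WrS_ext {A : Set (G → ℂ)} (hA : ∀ θ ∈ A, IsIrr θ) {θ : G → ℂ} (i1 : IsIrr θ)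
    {ε : ℂ} (hε : ε = 1 ∨ ε = -1) : ext2 ε θ ∈ WrS A ↔ θ ∈ A := by
  have hεε : ε * ε = 1 := by rcases hε with rfl | rfl <;> norm_num
  constructor
  · rintro (⟨ψ₁, h1, ψ₂, h2, hne', h⟩ | ⟨ψ, h1, h | h⟩)
    · exact absurd h.symm (ind2_ne_ext2 (hA _ h1) (hA _ h2) i1 hne')
    · rw [(ext2_inj i1 (hA _ h1) hεε (by norm_num) h).1]
      exact h1
    · rw [(ext2_inj i1 (hA _ h1) hεε (by norm_num) h).1]
      exact h1
  · intro h1
    rcases hε with rfl | rfl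
    · exact Or.inr ⟨θ, h1, Or.inl rfl⟩
    · exact Or.inr ⟨θ, h1, Or.inr rfl⟩

/-- `f ⊗ f` on the base group, zero outside -/
def prodCoef (f : G → ℂ) (x : Wr G) : ℂ := (ind2 f f x) / 2

theorem prodCoef_base (f : G → ℂ) (a b : G) : prodCoef f ⟨a, b, false⟩ = f a * f b := by
  unfold prodCoef
  simp only [ind2]
  ring

theorem prodCoef_true (f : G → ℂ) (a b : G) : prodCoef f ⟨a, b, true⟩ = 0 := by
  unfold prodCoef
  simp [ind2]

theorem prodCoef_cl {f : G → ℂ} (hf : IsCl f) : IsCl (prodCoef f) := by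
  intro g y
  unfold prodCoef
  rw [ind2_class hf hf g y]

theorem sum_prodCoef (f : G → ℂ) (h : Wr G → ℂ) :
    ∑ x, prodCoef f x * h x = ∑ a, ∑ b, f a * f b * h ⟨a, b, false⟩ := by
  rw [Wr.sum_eq]
  simp_rw [prodCoef_base, prodCoef_true, zero_mul]
  simp

theorem Om_prod_ind (f : G → ℂ) {θ₁ θ₂ : G → ℂ} (h1 : θ₁ 1 ≠ 0) (h2 : θ₂ 1 ≠ 0) :
    Om (prodCoef f) (ind2 θ₁ θ₂) = Om f θ₁ * Om f θ₂ := by
  unfold Om
  rw [sum_prodCoef]
  have e1 : ind2 θ₁ θ₂ 1 = 2 * (θ₁ 1 * θ₂ 1) := by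
    change θ₁ 1 * θ₂ 1 + θ₂ 1 * θ₁ 1 = _
    ring
  have e2 : ∑ a : G, ∑ b : G, f a * f b * ind2 θ₁ θ₂ ⟨a, b, false⟩ =
      2 * ((∑ g, f g * θ₁ g) * ∑ g, f g * θ₂ g) := by
    have e3 : ∀ a b : G, f a * f b * ind2 θ₁ θ₂ ⟨a, b, false⟩ =
        (f a * θ₁ a) * (f b * θ₂ b) + (f a * θ₂ a) * (f b * θ₁ b) := by
      intro a b
      simp only [ind2]
      ring
    simp_rw [e3, Finset.sum_add_distrib]
    rw [← Finset.sum_mul_sum, ← Finset.sum_mul_sum]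
    ring
  rw [e1, e2]
  field_simp

theorem Om_prod_ext (f : G → ℂ) (ε : ℂ) {θ : G → ℂ} (h1 : θ 1 ≠ 0) :
    Om (prodCoef f) (ext2 ε θ) = Om f θ * Om f θ := by
  unfold Om
  rw [sum_prodCoef]
  have e1 : ext2 ε θ 1 = θ 1 * θ 1 := rfl
  have e2 : ∑ a : G, ∑ b : G, f a * f b * ext2 ε θ ⟨a, b, false⟩ =
      (∑ g, f g * θ g) * ∑ g, f g * θ g := by
    have e3 : ∀ a b : G, f a * f b * ext2 ε θ ⟨a, b, false⟩ = (f a * θ a) * (f b * θ b) := by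
      intro a b
      simp only [ext2]
      ring
    simp_rw [e3]
    rw [← Finset.sum_mul_sum]
  rw [e1, e2]
  field_simp

/-- the coefficients of the block idempotent -/
theorem coeff_wr {B : Set (G → ℂ)} (hB : ∀ θ ∈ B, IsIrr θ) :
    blockCoeff (WrS B) = prodCoef (blockCoeff B) := by
  have hi := WrS_irr hB
  apply eq_of_Om (blockCoeff_cl hi) (prodCoef_cl (blockCoeff_cl hB))
  intro χ hχ
  rw [Om_blockCoeff hi hχ]
  rcases cover hχ with ⟨θ₁, θ₂, i1, i2, hne, rfl⟩ | ⟨θ, i1, rfl⟩ | ⟨θ, i1, rfl⟩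
  · rw [Om_prod_ind _ (IsIrr.one_ne i1) (IsIrr.one_ne i2), Om_blockCoeff hB i1,
      Om_blockCoeff hB i2]
    by_cases h1 : θ₁ ∈ B
    · by_cases h2 : θ₂ ∈ B
      · rw [if_pos h1, if_pos h2, if_pos ((mem_WrS_ind hB i1 i2 hne).mpr ⟨h1, h2⟩), mul_one]
      · rw [if_pos h1, if_neg h2, if_neg (fun h => h2 ((mem_WrS_ind hB i1 i2 hne).mp h).2), mul_zero]
    · rw [if_neg h1, if_neg (fun h => h1 ((mem_WrS_ind hB i1 i2 hne).mp h).1), zero_mul]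
  · rw [Om_prod_ext _ _ (IsIrr.one_ne i1), Om_blockCoeff hB i1]
    by_cases h1 : θ ∈ B
    · rw [if_pos h1, if_pos ((mem_WrS_ext hB i1 (Or.inl rfl)).mpr h1), mul_one]
    · rw [if_neg h1, if_neg (fun h => h1 ((mem_WrS_ext hB i1 (Or.inl rfl)).mp h)), mul_zero]
  · rw [Om_prod_ext _ _ (IsIrr.one_ne i1), Om_blockCoeff hB i1]
    by_cases h1 : θ ∈ B
    · rw [if_pos h1, if_pos ((mem_WrS_ext hB i1 (Or.inr rfl)).mpr h1), mul_one]
    · rw [if_neg h1, if_neg (fun h => h1 ((mem_WrS_ext hB i1 (Or.inr rfl)).mp h)), mul_zero]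

end coeff

end Pool.Agent.Q259.BW
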