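import Pool.Agent.Q259.BW.Def

/-!
# The defect group of the block of the wreath product; blocks with trivial defect group
-/

set_option autoImplicit false
set_option linter.unusedSectionVars false

open scoped BigOperators Classical

noncomputable section

namespace Pool.Agent.Q259.BW

open Pool.Agent.Q90.WR Pool.Agent.H254R3.IN

section dft

variable {G : Type} [Group G] [Fintype G] {O : ValuationSubring ℂ} {p : ℕ} [hp : Fact p.Prime]

/-- the centraliser of `(x, x)` -/
theorem centralizer_wr (x : G) (w : Wr G) :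
    w ∈ Subgroup.centralizer ({(⟨x, x, false⟩ : Wr G)} : Set (Wr G)) ↔
      w.a ∈ Subgroup.centralizer ({x} : Set G) ∧ w.b ∈ Subgroup.centralizer ({x} : Set G) := by
  obtain ⟨a, b, s⟩ := w
  rw [Subgroup.mem_centralizer_singleton_iff, Subgroup.mem_centralizer_singleton_iff,
    Subgroup.mem_centralizer_singleton_iff]
  cases s
  · rw [Wr.mk_false_mul, Wr.mk_false_mul]
    simp only [Wr.mk.injEq, and_true]
  · rw [Wr.mk_false_mul, Wr.mk_true_mul]
    simp only [Bool.not_false, Wr.mk.injEq, and_true]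

/-- the centraliser as a set -/
def centEquiv (x : G) : Subgroup.centralizer ({(⟨x, x, false⟩ : Wr G)} : Set (Wr G)) ≃
    Subgroup.centralizer ({x} : Set G) × Subgroup.centralizer ({x} : Set G) × Bool where
  toFun w := (⟨w.1.a, ((centralizer_wr x w.1).mp w.2).1⟩,
    ⟨w.1.b, ((centralizer_wr x w.1).mp w.2).2⟩, w.1.s)
  invFun y := ⟨⟨y.1, y.2.1, y.2.2⟩, (centralizer_wr x _).mpr ⟨y.1.2, y.2.1.2⟩⟩
  left_inv _ := rfl
  right_inv _ := rfl

theorem card_cent_wr (x : G) :
    Nat.card (Subgroup.centralizer ({(⟨x, x, false⟩ : Wr G)} : Set (Wr G))) =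
      2 * Nat.card (Subgroup.centralizer ({x} : Set G)) ^ 2 := by
  rw [Nat.card_congr (centEquiv x), Nat.card_prod, Nat.card_prod,
    Nat.card_eq_fintype_card (α := Bool), Fintype.card_bool]
  ring

/-- the index of a subgroup in a larger one -/
theorem card_mul_relIndex {C D : Subgroup G} (h : D ≤ C) :
    Nat.card D * D.relIndex C = Nat.card C := by
  rw [Subgroup.relIndex, ← Subgroup.card_mul_index (D.subgroupOf C)]
  congr 1
  exact (Nat.card_congr (Subgroup.subgroupOfEquivOfLe h).toEquiv).symm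

theorem wr_defect (hp2 : p ≠ 2) (hpO : (p : ℂ) ∈ O.nonunits) {B : Set (G → ℂ)}
    (hB : IsBlock O B) (hz : ∀ ψ ∈ B, (Nat.card G : ℂ) / ψ 1 ∈ O.nonunits) {D : Subgroup G}
    (hD : IsDefectGroup p O B D) : IsDefectGroup p O (WrS B) (dbl D) := by
  rw [isDefectGroup_iff] at hD ⊢
  obtain ⟨x, h1, h2, h3, h4, h5⟩ := hD
  have h2p : ¬ p ∣ 2 := fun h => hp2 ((Nat.prime_dvd_prime_iff_eq hp.out Nat.prime_two).mp h)
  have hh : (2 : ℂ)⁻¹ ∈ O := by exact_mod_cast nat_inv_mem (n := 2) hpO h2p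
  have hle : dbl D ≤ Subgroup.centralizer ({(⟨x, x, false⟩ : Wr G)} : Set (Wr G)) := by
    intro w hw
    rw [mem_dbl] at hw
    exact (centralizer_wr x w).mpr ⟨h1 hw.2.1, h1 hw.2.2⟩
  refine ⟨⟨x, x, false⟩, hle, isPGroup_dbl h2, ?_, ?_, ?_⟩
  · have e1 := card_mul_relIndex hle
    have e2 := card_mul_relIndex h1
    rw [card_dbl, card_cent_wr, ← e2] at e1
    have e3 : 0 < Nat.card D ^ 2 := pow_pos Nat.card_pos _
    have e4 : (dbl D).relIndex (Subgroup.centralizer ({(⟨x, x, false⟩ : Wr G)} : Set (Wr G))) =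
        2 * (D.relIndex (Subgroup.centralizer ({x} : Set G))) ^ 2 := by
      apply Nat.eq_of_mul_eq_mul_left e3
      rw [e1]
      ring
    rw [e4]
    intro h
    rcases (Nat.Prime.dvd_mul hp.out).mp h with h | h
    · exact h2p h
    · exact h3 (hp.out.dvd_of_dvd_pow h)
  · intro χ hχ
    obtain ⟨θ₀, hθ₀⟩ := hB.nonempty
    have hi := hB.irr
    have hL : ∀ ψ ∈ B, ∀ a, L (MonoidHom.id G) ψ a ∈ O ∧
        red O (L (MonoidHom.id G) ψ a) = red O (omega θ₀ a) := by
      intro ψ hψ a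
      rw [← omega_eq_L (hi ψ hψ)]
      exact ⟨(hi ψ hψ).omega_mem O a, hB.red_eq hψ hθ₀ a⟩
    have hP := L_wr hh (fun ψ hψ => (hi ψ hψ).one_ne) _ hL hz χ hχ ⟨x, x, false⟩
    have hχi := WrS_irr hi χ hχ
    rw [← omega_eq_L' hχi] at hP
    intro hcon
    have h6 := hP.2
    rw [red_eq_zero hcon] at h6
    have h7 : red O (omega θ₀ x) ≠ 0 := fun h =>
      h4 θ₀ hθ₀ ((red_eq_zero_iff ((hi _ hθ₀).omega_mem O x)).mp h)
    have h8 : (0 : RF O) = red O (kap x x) * (2 * (red O (omega θ₀ x) * red O (omega θ₀ x))) := h6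
    obtain ⟨hq, h2ne⟩ := half_red hh
    unfold kap at h8
    rw [if_pos (IsConj.refl x), one_div] at h8
    have h9 : red O (omega θ₀ x) * red O (omega θ₀ x) = 0 := by
      linear_combination (-(red O (omega θ₀ x) * red O (omega θ₀ x))) * hq - h8
    exact h7 (mul_self_eq_zero.mp h9)
  · rw [coeff_wr hB.irr, prodCoef_base]
    intro hcon
    have m := blockCoeff_mem hB x
    have h6 := red_eq_zero hcon
    rw [red_mul m m] at h6
    exact h5 ((red_eq_zero_iff m).mp (mul_self_eq_zero.mp h6))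

/-- a block with a nontrivial defect group contains no character of defect zero -/
theorem nonunits_of_defect (hpO : (p : ℂ) ∈ O.nonunits) {B : Set (G → ℂ)} (hB : IsBlock O B)
    {D : Subgroup G} (hD : IsDefectGroup p O B D) (hne : D ≠ ⊥) :
    ∀ θ ∈ B, (Nat.card G : ℂ) / θ 1 ∈ O.nonunits := by
  intro θ hθ
  have hi := hB.irr
  have hθi := hi θ hθ
  have hG0 : (Nat.card G : ℂ) ≠ 0 := cardG_ne G
  -- `|G| / θ(1)` is in `O`
  have hmem : (Nat.card G : ℂ) / θ 1 ∈ O := by
    have h1 : (Nat.card G : ℂ) / θ 1 = Om (fun g => θ g⁻¹) θ := by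
      unfold Om
      have h2 := orth_sum hθi hθi
      rw [if_pos rfl] at h2
      rw [← h2]
      congr 1
      exact Finset.sum_congr rfl fun g _ => mul_comm _ _
    rw [h1]
    refine (red_Om hθi ?_ fun g => hθi.val_mem O _).1
    intro g y
    have e : (y * g * y⁻¹)⁻¹ = y * g⁻¹ * y⁻¹ := by group
    simp only [e]
    exact hθi.conj _ _
  by_contra hcon
  have hr : red O ((Nat.card G : ℂ) / θ 1) ≠ 0 := fun h => hcon ((red_eq_zero_iff hmem).mp h)
  obtain ⟨-, hinv, -⟩ := inv_mem_of_red_ne hr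
  have hinv' : θ 1 / (Nat.card G : ℂ) ∈ O := by rwa [inv_div] at hinv
  -- the idempotent of `θ`
  set f : G → ℂ := fun g => θ 1 / (Nat.card G : ℂ) * θ g⁻¹ with hf
  have hfcl : IsCl f := by
    intro g y
    have e : (y * g * y⁻¹)⁻¹ = y * g⁻¹ * y⁻¹ := by group
    simp only [hf, e]
    rw [hθi.conj]
  have hfO : ∀ g, f g ∈ O := fun g => O.mul_mem _ _ hinv' (hθi.val_mem O _)
  have hOm : ∀ ψ, IsIrr ψ → Om f ψ = if θ = ψ then 1 else 0 := by
    intro ψ hψ
    unfold Om
    have h2 := orth_sum hψ hθi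
    have h3 : ∑ g, f g * ψ g = θ 1 / (Nat.card G : ℂ) * ∑ g, ψ g * θ g⁻¹ := by
      rw [Finset.mul_sum]
      refine Finset.sum_congr rfl fun g _ => ?_
      simp only [hf]
      ring
    rw [h3, h2]
    by_cases h : θ = ψ
    · subst h
      rw [if_pos rfl, if_pos rfl]
      have := hθi.one_ne
      field_simp
    · rw [if_neg h, if_neg (fun h' => h h'.symm), mul_zero, zero_div]
  have hB1 : ∀ ψ ∈ B, ψ = θ := by
    intro ψ hψ
    by_contra hne'
    have e1 := (red_Om hθi hfcl hfO).2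
    have e2 := (red_Om (hi ψ hψ) hfcl hfO).2
    rw [hOm θ hθi, if_pos rfl, red_one] at e1
    rw [hOm ψ (hi ψ hψ), if_neg (fun h => hne' h.symm), red_zero] at e2
    have e3 : ∀ K : ConjClasses G, red O (omega θ (rep K)) = red O (omega ψ (rep K)) :=
      fun K => hB.red_eq hθ hψ _
    rw [Finset.sum_congr rfl fun K _ => by rw [e3 K], ← e2] at e1
    exact one_ne_zero e1
  -- the coefficients of the block idempotent
  have hco : blockCoeff B = f := by
    apply eq_of_Om (blockCoeff_cl hi) hfcl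
    intro ψ hψ
    rw [Om_blockCoeff hi hψ, hOm ψ hψ]
    by_cases h : θ = ψ
    · rw [if_pos h, if_pos (h ▸ hθ)]
    · rw [if_neg h, if_neg (fun h' => h (hB1 ψ h').symm)]
  obtain ⟨x, h1, h2, h3, h4, h5⟩ := isDefectGroup_iff.mp hD
  have hpC : p ∣ Nat.card (Subgroup.centralizer ({x⁻¹} : Set G)) := by
    have e1 : Subgroup.centralizer ({x⁻¹} : Set G) = Subgroup.centralizer ({x} : Set G) := by
      ext y
      rw [Subgroup.mem_centralizer_singleton_iff, Subgroup.mem_centralizer_singleton_iff]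
      constructor
      · intro h
        have : x * (y * x⁻¹) * x = x * (x⁻¹ * y) * x := by rw [h]
        simpa [mul_assoc] using this.symm
      · intro h
        have : x⁻¹ * (y * x) * x⁻¹ = x⁻¹ * (x * y) * x⁻¹ := by rw [h]
        simpa [mul_assoc] using this.symm
    rw [e1, ← card_mul_relIndex h1]
    refine Dvd.dvd.mul_right ?_ _
    obtain ⟨n, hn⟩ := IsPGroup.iff_card.mp h2
    rw [hn]
    refine dvd_pow_self p fun h0 => hne ?_
    rw [h0, pow_zero] at hn
    exact Subgroup.eq_bot_of_card_eq D hn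
  apply h5
  rw [hco]
  have e2 := hθi.val_eq x⁻¹
  have e3 : f x = (θ 1 / (Nat.card G : ℂ)) * (omega θ x⁻¹ * (θ 1 / (Nat.card G : ℂ))) *
      (Nat.card (Subgroup.centralizer ({x⁻¹} : Set G)) : ℂ) := by
    simp only [hf]
    rw [e2]
    ring
  have m1 := O.mul_mem _ _ hinv' (O.mul_mem _ _ (hθi.omega_mem O x⁻¹) hinv')
  have m2 := natCast_mem' (O := O) (Nat.card (Subgroup.centralizer ({x⁻¹} : Set G)))
  rw [e3, ← red_eq_zero_iff (O.mul_mem _ _ m1 m2), red_mul m1 m2,
    (red_nat_eq_zero_iff hpO _).mpr hpC, mul_zero]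

end dft

end Pool.Agent.Q259.BW
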