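import Mathlib

/-!
# Two finite `Γ`-sets with the same numbers of fixed points of all subgroups are isomorphic
-/

set_option autoImplicit false

open scoped Classical

noncomputable section

namespace Pool.Agent.Q259.BW

section

variable {Γ X Y : Type} [Group Γ] [MulAction Γ X] [MulAction Γ Y]

/-- the map of orbits -/
def phi (x₀ : X) (y₀ : Y) (x : X) : Y :=
  if h : ∃ g : Γ, g • x₀ = x then h.choose • y₀ else y₀

theorem phi_smul {x₀ : X} {y₀ : Y}
    (h : MulAction.stabilizer Γ x₀ ≤ MulAction.stabilizer Γ y₀) (g : Γ) :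
    phi (Γ := Γ) x₀ y₀ (g • x₀) = g • y₀ := by
  have h1 : ∃ g' : Γ, g' • x₀ = g • x₀ := ⟨g, rfl⟩
  unfold phi
  rw [dif_pos h1]
  have h2 := h1.choose_spec
  have h3 : g⁻¹ * h1.choose ∈ MulAction.stabilizer Γ x₀ := by
    rw [MulAction.mem_stabilizer_iff, mul_smul, h2, inv_smul_smul]
  have h4 := MulAction.mem_stabilizer_iff.mp (h h3)
  rw [mul_smul, inv_smul_eq_iff] at h4
  exact h4

/-- the points of `A` fixed by `Δ` -/
def fxp (A : Set X) (Δ : Subgroup Γ) : Set X := {x | x ∈ A ∧ ∀ g ∈ Δ, g • x = x}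

theorem iso_of_marks : ∀ (n : ℕ) (A : Set X) (B : Set Y), A.Finite → B.Finite → A.ncard = n →
    (∀ g : Γ, ∀ x ∈ A, g • x ∈ A) → (∀ g : Γ, ∀ y ∈ B, g • y ∈ B) →
    (∀ Δ : Subgroup Γ, (fxp A Δ).ncard = (fxp B Δ).ncard) →
    Nonempty Y → ∃ f : X → Y, Set.BijOn f A B ∧ ∀ g : Γ, ∀ x ∈ A, f (g • x) = g • f x := by
  intro n
  induction n using Nat.strong_induction_on with
  | _ n ih =>
    intro A B hA hB hn sA sB hm hY
    have hAB : A.ncard = B.ncard := by
      have h := hm ⊥
      have e1 : fxp A (⊥ : Subgroup Γ) = A := by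
        ext x
        unfold fxp
        simp only [Set.mem_ofPred_eq, Subgroup.mem_bot, forall_eq, one_smul, and_true]
      have e2 : fxp B (⊥ : Subgroup Γ) = B := by
        ext x
        unfold fxp
        simp only [Set.mem_ofPred_eq, Subgroup.mem_bot, forall_eq, one_smul, and_true]
      rwa [e1, e2] at h
    rcases A.eq_empty_or_nonempty with rfl | hne
    · rw [Set.ncard_empty] at hAB
      have hB0 : B = ∅ := (Set.ncard_eq_zero hB).mp hAB.symm
      subst hB0
      exact ⟨fun _ => hY.some, Set.bijOn_empty _, fun g x hx => absurd hx (Set.notMem_empty x)⟩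
    · -- an orbit of minimal size
      obtain ⟨x₀, hx₀, hmin⟩ := Set.exists_min_image A
        (fun x => (MulAction.stabilizer Γ x).index) hA hne
      have idx : ∀ x ∈ A, (MulAction.stabilizer Γ x).index ≠ 0 := by
        intro x hx
        rw [MulAction.index_stabilizer]
        have h1 : (MulAction.orbit Γ x).Finite := hA.subset (by
          rintro z ⟨g, rfl⟩
          exact sA g x hx)
        exact ((Set.ncard_pos h1).mpr ⟨x, MulAction.mem_orbit_self x⟩).ne'
      obtain ⟨y₀, hy₀⟩ : (fxp B (MulAction.stabilizer Γ x₀)).Nonempty := by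
        rw [← Set.ncard_pos (hB.subset fun y hy => hy.1), ← hm,
          Set.ncard_pos (hA.subset fun y hy => hy.1)]
        exact ⟨x₀, hx₀, fun g hg => hg⟩
      have le1 : MulAction.stabilizer Γ x₀ ≤ MulAction.stabilizer Γ y₀ := fun g hg => hy₀.2 g hg
      obtain ⟨x₁, hx₁⟩ : (fxp A (MulAction.stabilizer Γ y₀)).Nonempty := by
        rw [← Set.ncard_pos (hA.subset fun y hy => hy.1), hm,
          Set.ncard_pos (hB.subset fun y hy => hy.1)]
        exact ⟨y₀, hy₀.1, fun g hg => hg⟩
      have le2 : MulAction.stabilizer Γ y₀ ≤ MulAction.stabilizer Γ x₁ := fun g hg => hx₁.2 g hg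
      have le3 : MulAction.stabilizer Γ x₁ ≤ MulAction.stabilizer Γ x₀ := by
        have h1 := Subgroup.relIndex_mul_index (le1.trans le2)
        have h2 := hmin x₁ hx₁.1
        have h3 := idx x₁ hx₁.1
        have h4 := idx x₀ hx₀
        have h5 : (MulAction.stabilizer Γ x₀).relIndex (MulAction.stabilizer Γ x₁) = 1 := by
          rcases Nat.lt_or_ge ((MulAction.stabilizer Γ x₀).relIndex
            (MulAction.stabilizer Γ x₁)) 2 with h | h
          · rcases Nat.lt_or_ge ((MulAction.stabilizer Γ x₀).relIndex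
              (MulAction.stabilizer Γ x₁)) 1 with h' | h'
            · have h6 : (MulAction.stabilizer Γ x₀).relIndex (MulAction.stabilizer Γ x₁) = 0 := by
                omega
              rw [h6, zero_mul] at h1
              exact absurd h1.symm h4
            · omega
          · exfalso
            have h2' : (MulAction.stabilizer Γ x₀).index ≤ (MulAction.stabilizer Γ x₁).index := h2
            have h6 := Nat.mul_le_mul_right (MulAction.stabilizer Γ x₁).index h
            rw [h1] at h6
            omega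
        exact Subgroup.relIndex_eq_one.mp h5
      have le4 : MulAction.stabilizer Γ y₀ ≤ MulAction.stabilizer Γ x₀ := le2.trans le3
      let φ : X → Y := phi (Γ := Γ) x₀ y₀
      have hφ : ∀ g : Γ, φ (g • x₀) = g • y₀ := phi_smul le1
      have bφ : Set.BijOn φ (MulAction.orbit Γ x₀) (MulAction.orbit Γ y₀) := by
        refine ⟨?_, ?_, ?_⟩
        · rintro x ⟨g, rfl⟩
          exact ⟨g, (hφ g).symm⟩
        · rintro x ⟨g, rfl⟩ x' ⟨g', rfl⟩ h
          change φ (g • x₀) = φ (g' • x₀) at h
          rw [hφ, hφ] at h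
          have h3 : g'⁻¹ * g ∈ MulAction.stabilizer Γ y₀ := by
            rw [MulAction.mem_stabilizer_iff, mul_smul, h, inv_smul_smul]
          have h4 := MulAction.mem_stabilizer_iff.mp (le4 h3)
          rw [mul_smul, inv_smul_eq_iff] at h4
          exact h4
        · rintro y ⟨g, rfl⟩
          exact ⟨g • x₀, ⟨g, rfl⟩, hφ g⟩
      have oA : MulAction.orbit Γ x₀ ⊆ A := by
        rintro z ⟨g, rfl⟩
        exact sA g x₀ hx₀
      have oB : MulAction.orbit Γ y₀ ⊆ B := by
        rintro z ⟨g, rfl⟩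
        exact sB g y₀ hy₀.1
      have fixφ : ∀ (h g : Γ), h • g • x₀ = g • x₀ ↔ h • g • y₀ = g • y₀ := by
        intro h g
        rw [← hφ g, ← mul_smul h g x₀]
        constructor
        · intro h1
          rw [hφ, ← mul_smul, ← hφ, h1, hφ]
        · intro h1
          rw [hφ, ← mul_smul, ← hφ, ← hφ] at h1
          exact bφ.2.1 ⟨h * g, rfl⟩ ⟨g, rfl⟩ h1
      -- the rest
      have key : ∀ Δ : Subgroup Γ, (fxp (A \ MulAction.orbit Γ x₀) Δ).ncard =
          (fxp (B \ MulAction.orbit Γ y₀) Δ).ncard := by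
        intro Δ
        have e1 : fxp (A \ MulAction.orbit Γ x₀) Δ = fxp A Δ \ fxp (MulAction.orbit Γ x₀) Δ := by
          ext x
          unfold fxp
          simp only [Set.mem_ofPred_eq, Set.mem_diff]
          tauto
        have e2 : fxp (B \ MulAction.orbit Γ y₀) Δ = fxp B Δ \ fxp (MulAction.orbit Γ y₀) Δ := by
          ext x
          unfold fxp
          simp only [Set.mem_ofPred_eq, Set.mem_diff]
          tauto
        have e3 : (fxp (MulAction.orbit Γ x₀) Δ).ncard = (fxp (MulAction.orbit Γ y₀) Δ).ncard := by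
          have h1 : fxp (MulAction.orbit Γ y₀) Δ = φ '' fxp (MulAction.orbit Γ x₀) Δ := by
            ext y
            constructor
            · rintro ⟨⟨g, rfl⟩, h⟩
              refine ⟨g • x₀, ⟨⟨g, rfl⟩, fun k hk => (fixφ k g).mpr (h k hk)⟩, hφ g⟩
            · rintro ⟨x, ⟨⟨g, rfl⟩, h⟩, rfl⟩
              change φ (g • x₀) ∈ _
              rw [hφ]
              exact ⟨⟨g, rfl⟩, fun k hk => (fixφ k g).mp (h k hk)⟩
          rw [h1]
          exact (Set.ncard_image_of_injOn (bφ.2.1.mono fun x hx => hx.1)).symm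
        have s1 : fxp (MulAction.orbit Γ x₀) Δ ⊆ fxp A Δ := fun x hx => ⟨oA hx.1, hx.2⟩
        have s2 : fxp (MulAction.orbit Γ y₀) Δ ⊆ fxp B Δ := fun x hx => ⟨oB hx.1, hx.2⟩
        have f1 : (fxp A Δ).Finite := hA.subset fun x hx => hx.1
        have f2 : (fxp B Δ).Finite := hB.subset fun x hx => hx.1
        rw [e1, e2, Set.ncard_diff s1 (f1.subset s1), Set.ncard_diff s2 (f2.subset s2), e3, hm]
      have hlt : (A \ MulAction.orbit Γ x₀).ncard < n := by
        rw [← hn]
        exact Set.ncard_lt_ncard ⟨Set.diff_subset, fun h =>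
          (h hx₀).2 (MulAction.mem_orbit_self x₀)⟩ hA
      have orb : ∀ (Z : Type) [MulAction Γ Z] (z : Z) (g : Γ) (w : Z),
          g • w ∈ MulAction.orbit Γ z → w ∈ MulAction.orbit Γ z := by
        rintro Z _ z g w ⟨k, hk⟩
        refine ⟨g⁻¹ * k, ?_⟩
        change (g⁻¹ * k) • z = w
        have hk' : k • z = g • w := hk
        rw [mul_smul, hk', inv_smul_smul]
      have orb' : ∀ (Z : Type) [MulAction Γ Z] (z : Z) (g : Γ) (w : Z),
          w ∈ MulAction.orbit Γ z → g • w ∈ MulAction.orbit Γ z := by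
        rintro Z _ z g w ⟨k, hk⟩
        refine ⟨g * k, ?_⟩
        change (g * k) • z = g • w
        have hk' : k • z = w := hk
        rw [mul_smul, hk']
      obtain ⟨f, hf, hfe⟩ := ih _ hlt (A \ MulAction.orbit Γ x₀) (B \ MulAction.orbit Γ y₀)
        (hA.subset Set.diff_subset) (hB.subset Set.diff_subset) rfl
        (fun g x hx => ⟨sA g x hx.1, fun h => hx.2 (orb X x₀ g x h)⟩)
        (fun g y hy => ⟨sB g y hy.1, fun h => hy.2 (orb Y y₀ g y h)⟩) key hY
      let F : X → Y := fun x => if x ∈ MulAction.orbit Γ x₀ then φ x else f x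
      have F1 : Set.EqOn F φ (MulAction.orbit Γ x₀) := fun x hx => if_pos hx
      have F2 : Set.EqOn F f (A \ MulAction.orbit Γ x₀) := fun x hx => if_neg hx.2
      refine ⟨F, ?_, ?_⟩
      · have b1 := bφ.congr F1.symm
        have b2 := hf.congr F2.symm
        have u1 : MulAction.orbit Γ x₀ ∪ (A \ MulAction.orbit Γ x₀) = A :=
          Set.union_diff_cancel oA
        have u2 : MulAction.orbit Γ y₀ ∪ (B \ MulAction.orbit Γ y₀) = B :=
          Set.union_diff_cancel oB
        rw [← u1, ← u2]
        refine b1.union b2 ?_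
        rintro x (hx | hx) x' (hx' | hx') h
        · exact b1.2.1 hx hx' h
        · exact absurd (h ▸ b1.1 hx) (b2.1 hx').2
        · exact absurd (h.symm ▸ b1.1 hx') (b2.1 hx).2
        · exact b2.2.1 hx hx' h
      · intro g x hx
        by_cases h : x ∈ MulAction.orbit Γ x₀
        · rw [F1 h, F1 (orb' X x₀ g x h)]
          obtain ⟨k, rfl⟩ := h
          change φ (g • k • x₀) = g • φ (k • x₀)
          rw [← mul_smul, hφ, hφ, mul_smul]
        · have h' : g • x ∉ MulAction.orbit Γ x₀ := fun hh => h (orb X x₀ g x hh)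
          rw [F2 ⟨hx, h⟩, F2 ⟨sA g x hx, h'⟩]
          exact hfe g x ⟨hx, h⟩

end

end Pool.Agent.Q259.BW
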