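import Pool.Agent.Q259.BW.Cnt
import Pool.Agent.Q259.BW.Mark

/-!
# Parities of numbers of height zero characters decide equivariant Alperin–McKay bijections
-/

set_option autoImplicit false
set_option linter.unusedSectionVars false

open scoped BigOperators Classical

noncomputable section

namespace Pool.Agent.Q259.BW

open Pool.Agent.Q90.WR Pool.Agent.H254R3.IN

/-- A group `G` with a subgroup `D`, a set `B` of complex functions (characters) on `G` and a set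
`b` of functions on `N_G(D)`. -/
structure Dat where
  /-- the group -/
  G : Type
  [grp : Group G]
  /-- the subgroup -/
  D : Subgroup G
  /-- characters of the group -/
  B : Set (G → ℂ)
  /-- characters of the normalizer of the subgroup -/
  b : Set (Subgroup.normalizer (D : Set G) → ℂ)

attribute [instance] Dat.grp

/-- `G` is a finite group, `B` is a `p`-block of `G` with defect group `D`, and `b` is its Brauer
correspondent, a block of `N_G(D)`. -/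
structure Dat.IsBrauer (p : ℕ) (O : ValuationSubring ℂ) (X : Dat) : Prop where
  fin : Finite X.G
  block : IsBlock O X.B
  defect : IsDefectGroup p O X.B X.D
  brauer : IsBrauerCorrespondent p O X.D X.B X.b

/-- The subgroup `D` of `N_G(D)`. -/
def Dat.DN (X : Dat) : Subgroup (Subgroup.normalizer (X.D : Set X.G)) :=
  X.D.subgroupOf (Subgroup.normalizer (X.D : Set X.G))

/-- `Irr₀(B)` -/
def Dat.ht0 (p : ℕ) (X : Dat) : Set (X.G → ℂ) := Irr0 p X.D X.B

/-- `Irr₀(b)` -/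
def Dat.ht0' (p : ℕ) (X : Dat) : Set (Subgroup.normalizer (X.D : Set X.G) → ℂ) :=
  Irr0 p X.DN X.b

/-- The group `G ≀ C₂` with the subgroup `D × D`, the characters above products of two characters
in `B`, and the characters of `N(D × D) = N_G(D) ≀ C₂` above products of two characters in `b`. -/
def Dat.wr (X : Dat) : Dat where
  G := Wr X.G
  D := dbl X.D
  B := WrS X.B
  b := wrb X.D X.b

variable {p : ℕ} [hp : Fact p.Prime] {O : ValuationSubring ℂ}

theorem Dat.IsBrauer.wr {X : Dat} (hX : X.IsBrauer p O) (hp2 : p ≠ 2) (hpO : (p : ℂ) ∈ O.nonunits)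
    (hne : X.D ≠ ⊥) : X.wr.IsBrauer p O := by
  have := hX.fin
  have := Fintype.ofFinite X.G
  obtain ⟨h1, h2, h3⟩ := wr_brauer hp2 hpO hX.block hX.defect hne hX.brauer
  exact ⟨inferInstanceAs (Finite (Wr X.G)), h1, h2, h3⟩

theorem Dat.wr_ne {X : Dat} (hne : X.D ≠ ⊥) : X.wr.D ≠ ⊥ := by
  intro h
  apply hne
  rw [Subgroup.eq_bot_iff_forall]
  intro x hx
  have h1 : (⟨x, x, false⟩ : Wr X.G) ∈ dbl X.D := by
    rw [mem_dbl]
    exact ⟨rfl, hx, hx⟩
  have h2 : dbl X.D = ⊥ := h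
  rw [h2, Subgroup.mem_bot] at h1
  exact congrArg Wr.a h1

section one

variable {X : Dat} (hX : X.IsBrauer p O) (hp2 : p ≠ 2) (hpO : (p : ℂ) ∈ O.nonunits)

include hX hp2 hpO in
theorem ht0_wr : X.wr.ht0 p = WrS (X.ht0 p) := by
  have := hX.fin
  have := Fintype.ofFinite X.G
  exact irr0_WrS hp2 hpO hX.block hX.defect

include hX hp2 hpO in
theorem ht0'_wr : X.wr.ht0' p = pull (normEquiv X.D) (WrS (X.ht0' p)) := by
  have := hX.fin
  have := Fintype.ofFinite X.G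
  have h := irr0_WrS hp2 hpO hX.brauer.1 hX.brauer.2.1
  have h1 := irr0_pull (normEquiv X.D) (p := p) (dbl X.DN) (WrS X.b)
  have h2 : (dbl X.DN).comap (normEquiv X.D).toMonoidHom = X.wr.DN := by
    ext x
    rfl
  have h3 : Irr0 p (dbl X.DN) (WrS X.b) = WrS (Irr0 p X.DN X.b) := h
  rw [h2, h3] at h1
  exact h1

include hX in
theorem ht0_irr : ∀ χ ∈ X.ht0 p, IsIrr χ := by
  have := hX.fin
  have := Fintype.ofFinite X.G
  exact fun χ hχ => hX.block.irr χ hχ.1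

include hX in
theorem ht0'_irr : ∀ χ ∈ X.ht0' p, IsIrr χ := by
  have := hX.fin
  have := Fintype.ofFinite (Subgroup.normalizer (X.D : Set X.G))
  exact fun χ hχ => hX.brauer.1.irr χ hχ.1

end one

/-- Every element of `S` maps `B` and `b` to themselves, and some odd power of it fixes all
characters of height zero in `B` and `b`. -/
structure Dat.Adm (p : ℕ) (S : Set (ℂ ≃+* ℂ)) (X : Dat) : Prop where
  stable : StableS S X.B
  stable' : StableS S X.b
  odd : OddOnS S (X.ht0 p)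
  odd' : OddOnS S (X.ht0' p)

omit hp in
theorem Dat.Adm.mono {X : Dat} {S T : Set (ℂ ≃+* ℂ)} (h : X.Adm p S) (hT : T ⊆ S) :
    X.Adm p T :=
  ⟨fun σ hσ => h.stable σ (hT hσ), fun σ hσ => h.stable' σ (hT hσ), fun σ hσ => h.odd σ (hT hσ),
    fun σ hσ => h.odd' σ (hT hσ)⟩

theorem Dat.Adm.wr {X : Dat} {S : Set (ℂ ≃+* ℂ)} (h : X.Adm p S) (hX : X.IsBrauer p O)
    (hp2 : p ≠ 2) (hpO : (p : ℂ) ∈ O.nonunits) : X.wr.Adm p S := by
  have := hX.fin
  have := Fintype.ofFinite X.G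
  refine ⟨stable_WrS h.stable, stable_pull _ (stable_WrS h.stable'), ?_, ?_⟩
  · rw [ht0_wr hX hp2 hpO]
    exact oddOnS_WrS h.odd (ht0_irr hX)
  · rw [ht0'_wr hX hp2 hpO]
    exact oddOnS_pull _ (oddOnS_WrS h.odd' (ht0'_irr hX))

theorem num_wr {X : Dat} {S : Set (ℂ ≃+* ℂ)} (h : X.Adm p S) (hX : X.IsBrauer p O)
    (hp2 : p ≠ 2) (hpO : (p : ℂ) ∈ O.nonunits) :
    2 * (Nat.card (Fx S (X.wr.ht0 p)) : ℤ) =
      (Nat.card (Fx S (X.ht0 p)) : ℤ) ^ 2 + 3 * Nat.card (Fx S (X.ht0 p)) := by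
  have := hX.fin
  have := Fintype.ofFinite X.G
  have h1 : Fx S (X.wr.ht0 p) = WrS (Fx S (X.ht0 p)) := by
    rw [ht0_wr hX hp2 hpO]
    exact fx_WrS h.odd (ht0_irr hX)
  have h2 : Nat.card (Fx S (X.wr.ht0 p)) = Nat.card (WrS (Fx S (X.ht0 p))) := by rw [h1]; rfl
  rw [h2]
  exact card_WrS fun χ hχ => ht0_irr hX χ hχ.1

theorem num'_wr {X : Dat} {S : Set (ℂ ≃+* ℂ)} (h : X.Adm p S) (hX : X.IsBrauer p O)
    (hp2 : p ≠ 2) (hpO : (p : ℂ) ∈ O.nonunits) :
    2 * (Nat.card (Fx S (X.wr.ht0' p)) : ℤ) =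
      (Nat.card (Fx S (X.ht0' p)) : ℤ) ^ 2 + 3 * Nat.card (Fx S (X.ht0' p)) := by
  have := hX.fin
  have := Fintype.ofFinite X.G
  have h1 : Fx S (X.wr.ht0' p) = pull (normEquiv X.D) (WrS (Fx S (X.ht0' p))) := by
    rw [ht0'_wr hX hp2 hpO, ← fx_WrS h.odd' (ht0'_irr hX)]
    exact fx_pull (normEquiv X.D) S (WrS (X.ht0' p))
  have h2 : Nat.card (Fx S (X.wr.ht0' p)) =
      Nat.card (pull (normEquiv X.D) (WrS (Fx S (X.ht0' p)))) := by rw [h1]; rfl
  rw [h2, card_pull]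
  exact card_WrS fun χ hχ => ht0'_irr hX χ hχ.1

theorem dvd_levels (hp2 : p ≠ 2) (hpO : (p : ℂ) ∈ O.nonunits) (S : Set (ℂ ≃+* ℂ)) :
    ∀ (a : ℕ) (X : Dat), X.IsBrauer p O → X.D ≠ ⊥ → X.Adm p S →
    (∀ j ≤ a, Nat.card (Fx S ((Dat.wr^[j] X).ht0 p)) ≡
      Nat.card (Fx S ((Dat.wr^[j] X).ht0' p)) [MOD 2]) →
    (2 : ℤ) ^ (a + 1) ∣ (Nat.card (Fx S (X.ht0 p)) : ℤ) - Nat.card (Fx S (X.ht0' p)) := by
  intro a
  induction a with
  | zero =>
    intro X _ _ _ H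
    rw [zero_add, pow_one]
    exact Nat.modEq_iff_dvd.mp (H 0 le_rfl).symm
  | succ a ih =>
    intro X hX hne hS H
    have h3 := ih X.wr (hX.wr hp2 hpO hne) (Dat.wr_ne hne) (hS.wr hX hp2 hpO)
      fun j hj => H (j + 1) (by omega)
    exact step (num_wr hS hX hp2 hpO) (num'_wr hS hX hp2 hpO)
      (ih X hX hne hS fun j hj => H j (by omega)) h3

theorem eq_levels' (hp2 : p ≠ 2) (hpO : (p : ℂ) ∈ O.nonunits) (S : Set (ℂ ≃+* ℂ)) :
    ∀ (a : ℕ) (X : Dat), X.IsBrauer p O → X.D ≠ ⊥ → X.Adm p S →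
    Nat.card (Fx S (X.ht0 p)) = Nat.card (Fx S (X.ht0' p)) →
    Nat.card (Fx S ((Dat.wr^[a] X).ht0 p)) = Nat.card (Fx S ((Dat.wr^[a] X).ht0' p)) := by
  intro a
  induction a with
  | zero => exact fun X _ _ _ H => H
  | succ a ih =>
    intro X hX hne hS H
    have e1 := num_wr hS hX hp2 hpO
    have e2 := num'_wr hS hX hp2 hpO
    rw [H] at e1
    exact ih X.wr (hX.wr hp2 hpO hne) (Dat.wr_ne hne) (hS.wr hX hp2 hpO) (by omega)

theorem levels_prop (hp2 : p ≠ 2) (hpO : (p : ℂ) ∈ O.nonunits) (S : Set (ℂ ≃+* ℂ)) :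
    ∀ (a : ℕ) (X : Dat), X.IsBrauer p O → X.D ≠ ⊥ → X.Adm p S →
    (Dat.wr^[a] X).IsBrauer p O ∧ (Dat.wr^[a] X).D ≠ ⊥ ∧ (Dat.wr^[a] X).Adm p S := by
  intro a
  induction a with
  | zero => exact fun X h1 h2 h3 => ⟨h1, h2, h3⟩
  | succ a ih =>
    intro X hX hne hS
    exact ih X.wr (hX.wr hp2 hpO hne) (Dat.wr_ne hne) (hS.wr hX hp2 hpO)

theorem finite_of_irr {G : Type} [Group G] [Finite G] {A : Set (G → ℂ)} (hA : ∀ χ ∈ A, IsIrr χ) :
    A.Finite := by
  have := Fintype.ofFinite G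
  exact (Pool.Agent.Helper884.IC.Irr G).finite_toSet.subset fun χ hχ =>
    Pool.Agent.Helper884.IC.mem_Irr.mpr (hA χ hχ)

theorem card_Fx_le {G : Type} [Group G] [Finite G] {A : Set (G → ℂ)} (hA : ∀ χ ∈ A, IsIrr χ)
    (S : Set (ℂ ≃+* ℂ)) : Nat.card (Fx S A) ≤ Nat.card A :=
  Nat.card_mono (finite_of_irr hA) fun _ hχ => hχ.1

/-- the numbers of fixed characters of height zero are equal if the parities are, for all
iterated wreath products up to a bound -/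
theorem num_criterion (hp2 : p ≠ 2) (hpO : (p : ℂ) ∈ O.nonunits) (S : Set (ℂ ≃+* ℂ)) (X : Dat)
    (hX : X.IsBrauer p O) (hne : X.D ≠ ⊥) (hS : X.Adm p S)
    (H : ∀ j : ℕ, 2 ^ j ≤ max (Nat.card (X.ht0 p)) (Nat.card (X.ht0' p)) →
      Nat.card (Fx S ((Dat.wr^[j] X).ht0 p)) ≡ Nat.card (Fx S ((Dat.wr^[j] X).ht0' p)) [MOD 2]) :
    Nat.card (Fx S (X.ht0 p)) = Nat.card (Fx S (X.ht0' p)) := by
  have := hX.fin
  have b1 := card_Fx_le (A := X.ht0 p) (ht0_irr hX) S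
  have b2 := card_Fx_le (A := X.ht0' p) (ht0'_irr hX) S
  set M := max (Nat.card (X.ht0 p)) (Nat.card (X.ht0' p)) with hM
  have m1 : Nat.card (X.ht0 p) ≤ M := le_max_left _ _
  have m2 : Nat.card (X.ht0' p) ≤ M := le_max_right _ _
  rcases Nat.eq_zero_or_pos M with h0 | h0
  · omega
  · have h3 : ∀ j ≤ Nat.log 2 M, 2 ^ j ≤ M := fun j hj =>
      (Nat.pow_le_pow_right (by norm_num) hj).trans (Nat.pow_log_le_self 2 h0.ne')
    have h4 := dvd_levels hp2 hpO S (Nat.log 2 M) X hX hne hS fun j hj => H j (h3 j hj)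
    have h5 : M < 2 ^ (Nat.log 2 M + 1) := Nat.lt_pow_succ_log_self (by norm_num) _
    have h8 : |(Nat.card (Fx S (X.ht0 p)) : ℤ) - Nat.card (Fx S (X.ht0' p))| <
        2 ^ (Nat.log 2 M + 1) := by
      have h9 : (M : ℤ) < 2 ^ (Nat.log 2 M + 1) := by exact_mod_cast h5
      rw [abs_lt]
      constructor <;> omega
    have h9 := Int.eq_zero_of_abs_lt_dvd h4 h8
    omega

end Pool.Agent.Q259.BW
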