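import Pool.Agent.Q259.BW.Dft
import Pool.Agent.Q90.WR.Gal

/-!
# Transport of blocks along isomorphisms; Brauer correspondents in wreath products
-/

set_option autoImplicit false
set_option linter.unusedSectionVars false

open scoped BigOperators Classical

noncomputable section

namespace Pool.Agent.Q259.BW

open Pool.Agent.Q90.WR Pool.Agent.H254R3.IN

/-- The characters of `H` which correspond to the ones in `B` under the isomorphism `e`. -/
def pull {H K : Type} [Group H] [Group K] (e : H ≃* K) (B : Set (K → ℂ)) : Set (H → ℂ) :=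
  {χ | (fun k => χ (e.symm k)) ∈ B}

section tr

variable {H K : Type} [Group H] [Fintype H] [Group K] [Fintype K] (e : H ≃* K)
  {O : ValuationSubring ℂ} {p : ℕ} [hp : Fact p.Prime]

theorem irr_symm {χ : H → ℂ} : IsIrr (fun k => χ (e.symm k)) ↔ IsIrr χ :=
  irr_comp_iff e.symm

theorem isConj_e {x y : H} : IsConj (e x) (e y) ↔ IsConj x y := by
  constructor
  · intro h
    have := e.symm.toMonoidHom.map_isConj h
    simpa using this
  · intro h
    exact e.toMonoidHom.map_isConj h

theorem omega_symm (χ : H → ℂ) (x : H) : omega (fun k => χ (e.symm k)) (e x) = omega χ x := by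
  unfold omega
  simp only [MulEquiv.symm_apply_apply, map_one]
  have h : Nat.card {y : K // IsConj (e x) y} = Nat.card {y : H // IsConj x y} := by
    refine (Nat.card_congr (Equiv.subtypeEquiv e.toEquiv fun y => ?_)).symm
    exact (isConj_e e).symm
  rw [h]

theorem pull_irr {B : Set (K → ℂ)} (hB : ∀ χ ∈ B, IsIrr χ) : ∀ χ ∈ pull e B, IsIrr χ :=
  fun _ hχ => (irr_symm e).mp (hB _ hχ)

theorem pull_block {B : Set (K → ℂ)} (hB : IsBlock O B) : IsBlock O (pull e B) := by
  obtain ⟨χ₀, h0, rfl⟩ := hB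
  refine ⟨fun h => χ₀ (e h), irr_comp e h0, ?_⟩
  ext χ
  unfold pull
  simp only [Set.mem_ofPred_eq]
  rw [irr_symm]
  refine and_congr_right fun hχ => ?_
  constructor
  · intro h x
    have h1 := h (e x)
    rw [omega_symm] at h1
    have h2 := omega_symm e (fun h => χ₀ (e h)) x
    simp only [MulEquiv.apply_symm_apply] at h2
    rwa [← h2]
  · intro h k
    have h1 := h (e.symm k)
    have h3 := omega_symm e χ (e.symm k)
    have h2 := omega_symm e (fun h => χ₀ (e h)) (e.symm k)
    simp only [MulEquiv.apply_symm_apply] at h2 h3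
    rw [h3, h2]
    exact h1

theorem coeff_pull {B : Set (K → ℂ)} (hB : ∀ χ ∈ B, IsIrr χ) (x : H) :
    blockCoeff (pull e B) x = blockCoeff B (e x) := by
  have h : blockCoeff (pull e B) = fun x => blockCoeff B (e x) := by
    have hc := blockCoeff_cl hB
    apply eq_of_Om (blockCoeff_cl (pull_irr e hB))
    · intro g y
      simp only [map_mul, map_inv]
      exact hc _ _
    · intro χ hχ
      rw [Om_blockCoeff (pull_irr e hB) hχ]
      have h1 : Om (fun x => blockCoeff B (e x)) χ = Om (blockCoeff B) (fun k => χ (e.symm k)) := by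
        unfold Om
        simp only [map_one]
        congr 1
        exact Fintype.sum_equiv e.toEquiv _ _ fun g => by simp
      rw [h1, Om_blockCoeff hB ((irr_symm e).mpr hχ)]
      rfl
  exact congrFun h x

theorem pull_defect {B : Set (K → ℂ)} (hB : ∀ χ ∈ B, IsIrr χ) {D : Subgroup K}
    (hD : IsDefectGroup p O B D) :
    IsDefectGroup p O (pull e B) (D.comap e.toMonoidHom) := by
  rw [isDefectGroup_iff] at hD ⊢
  obtain ⟨x, h1, h2, h3, h4, h5⟩ := hD
  have hc : Subgroup.centralizer ({e.symm x} : Set H) =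
      (Subgroup.centralizer ({x} : Set K)).comap e.toMonoidHom := by
    ext y
    rw [Subgroup.mem_comap, Subgroup.mem_centralizer_singleton_iff,
      Subgroup.mem_centralizer_singleton_iff]
    constructor
    · intro h
      have := congrArg e h
      simpa using this
    · intro h
      apply e.injective
      simpa using h
  refine ⟨e.symm x, ?_, ?_, ?_, ?_, ?_⟩
  · rw [hc]
    exact Subgroup.comap_mono h1
  · exact h2.comap_of_injective e.toMonoidHom e.injective
  · rw [hc, Subgroup.relIndex_comap, Subgroup.map_comap_eq_self_of_surjective e.surjective]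
    exact h3
  · intro χ hχ
    have h6 := h4 _ hχ
    have h7 := omega_symm e χ (e.symm x)
    rw [MulEquiv.apply_symm_apply] at h7
    rwa [h7] at h6
  · rw [coeff_pull e hB, MulEquiv.apply_symm_apply]
    exact h5

end tr

section brauer

variable {G : Type} [Group G] [Fintype G] {O : ValuationSubring ℂ} {p : ℕ} [hp : Fact p.Prime]

/-- The characters of `N(D × D) = N(D) ≀ C₂` above products of characters in `b`. -/
def wrb (D : Subgroup G) (b : Set (Subgroup.normalizer (D : Set G) → ℂ)) :
    Set (Subgroup.normalizer (dbl D : Set (Wr G)) → ℂ) :=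
  pull (normEquiv D) (WrS b)

/-- the sum in the definition of the Brauer correspondence -/
theorem sum_eq_L {N : Subgroup G} (θ : N → ℂ) (x : G) :
    ∑ᶠ y : {y : N // IsConj x (y : G)}, θ y / θ 1 = L N.subtype θ x := by
  rw [finsum_eq_sum_of_fintype]
  unfold L
  rw [Finset.sum_div]
  have h1 : ∑ y : {y : N // IsConj x (y : G)}, θ y / θ 1 =
      ∑ y ∈ Finset.univ.filter (fun y : N => IsConj x (y : G)), θ y / θ 1 :=
    (Finset.sum_subtype _ (fun y => by simp only [Finset.mem_filter, Finset.mem_univ, true_and])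
      fun y => θ y / θ 1).symm
  rw [h1, Finset.sum_filter]
  refine Finset.sum_congr rfl fun y _ => ?_
  change (if IsConj x (y : G) then θ y / θ 1 else 0) = (if IsConj x (y : G) then θ y else 0) / θ 1
  split_ifs
  · rfl
  · rw [zero_div]

theorem DD_ne_bot {D : Subgroup G} (hne : D ≠ ⊥) :
    D.subgroupOf (Subgroup.normalizer (D : Set G)) ≠ ⊥ := by
  intro h
  apply hne
  have h1 : Nat.card (D.subgroupOf (Subgroup.normalizer (D : Set G))) = Nat.card D := card_DD D
  rw [h, Subgroup.card_bot] at h1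
  exact Subgroup.eq_bot_of_card_eq D h1.symm

theorem wr_brauer (hp2 : p ≠ 2) (hpO : (p : ℂ) ∈ O.nonunits) {B : Set (G → ℂ)}
    (hB : IsBlock O B) {D : Subgroup G} (hD : IsDefectGroup p O B D) (hne : D ≠ ⊥)
    {b : Set (Subgroup.normalizer (D : Set G) → ℂ)} (hb : IsBrauerCorrespondent p O D B b) :
    IsBlock O (WrS B) ∧ IsDefectGroup p O (WrS B) (dbl D) ∧
      IsBrauerCorrespondent p O (dbl D) (WrS B) (wrb D b) := by
  have h2p : ¬ p ∣ 2 := fun h => hp2 ((Nat.prime_dvd_prime_iff_eq hp.out Nat.prime_two).mp h)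
  have hh : (2 : ℂ)⁻¹ ∈ O := by exact_mod_cast nat_inv_mem (n := 2) hpO h2p
  have hz := nonunits_of_defect hpO hB hD hne
  obtain ⟨hbB, hbD, hbc⟩ := hb
  have hzb := nonunits_of_defect hpO hbB hbD (DD_ne_bot hne)
  have hi := hB.irr
  have hib := hbB.irr
  refine ⟨wr_block hh hB hz, wr_defect hp2 hpO hB hz hD, ?_, ?_, ?_⟩
  · exact pull_block _ (wr_block hh hbB hzb)
  · have h1 := pull_defect (normEquiv D) (WrS_irr hib) (wr_defect hp2 hpO hbB hzb hbD)
    have h2 : (dbl (D.subgroupOf (Subgroup.normalizer (D : Set G)))).comap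
        (normEquiv D).toMonoidHom = (dbl D).subgroupOf (Subgroup.normalizer (dbl D : Set (Wr G))) := by
      ext x
      rfl
    rw [h2] at h1
    exact h1
  · intro χ hχ θ hθ x
    obtain ⟨θ₀, hθ₀⟩ := hB.nonempty
    let lam : G → RF O := fun a => red O (omega θ₀ a)
    have hL : ∀ ψ ∈ B, ∀ a, L (MonoidHom.id G) ψ a ∈ O ∧
        red O (L (MonoidHom.id G) ψ a) = lam a := by
      intro ψ hψ a
      rw [← omega_eq_L (hi ψ hψ)]
      exact ⟨(hi ψ hψ).omega_mem O a, hB.red_eq hψ hθ₀ a⟩
    have hLb : ∀ ψ ∈ b, ∀ a, L (Subgroup.normalizer (D : Set G)).subtype ψ a ∈ O ∧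
        red O (L (Subgroup.normalizer (D : Set G)).subtype ψ a) = lam a := by
      intro ψ hψ a
      have h1 := hbc θ₀ hθ₀ ψ hψ a
      rw [sum_eq_L] at h1
      obtain ⟨h2, h3⟩ := red_congr ((hi _ hθ₀).omega_mem O a) h1
      exact ⟨h2, h3.symm⟩
    have hP := L_wr hh (fun ψ hψ => (hi ψ hψ).one_ne) lam hL hz χ hχ x
    have hPb := L_wr hh (fun ψ hψ => (hib ψ hψ).one_ne) lam hLb hzb _ hθ x
    rw [← omega_eq_L' (WrS_irr hi χ hχ)] at hP
    have h4 : L (wmap (Subgroup.normalizer (D : Set G)).subtype)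
        (fun w => θ ((normEquiv D).symm w)) x =
        L (Subgroup.normalizer (dbl D : Set (Wr G))).subtype θ x := by
      unfold L
      simp only [map_one]
      congr 1
      exact Fintype.sum_equiv (normEquiv D).symm.toEquiv _ _ fun w => rfl
    rw [h4] at hPb
    rw [sum_eq_L, ← red_eq_iff hP.1 hPb.1, hP.2, hPb.2]

end brauer

end Pool.Agent.Q259.BW
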